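import Mathlib

/-!
# Vincular patterns
-/

namespace MP_48c8ea_co

/-- `Occurs p A π`: the permutation `π` of `{0,…,n-1}` contains an occurrence of the vincular
pattern `(p, A)`. Letters of the pattern are indexed by `0,…,k-1`, and `j ∈ A` says that the
letters number `j` and `j + 1` of an occurrence stand in adjacent positions of `π`. -/
def Occurs {k n : ℕ} (p : Equiv.Perm (Fin k)) (A : Finset ℕ) (π : Equiv.Perm (Fin n)) : Prop :=
  ∃ i : Fin k → Fin n, StrictMono i ∧ (∀ s t, π (i s) < π (i t) ↔ p s < p t) ∧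
    ∀ (j : ℕ) (hj : j + 1 < k), j ∈ A →
      (i ⟨j + 1, hj⟩ : ℕ) = (i ⟨j, Nat.lt_of_succ_lt hj⟩ : ℕ) + 1

/-- The number of permutations of length `n` avoiding the vincular pattern `(p, A)`. -/
noncomputable def Av {k : ℕ} (p : Equiv.Perm (Fin k)) (A : Finset ℕ) (n : ℕ) : ℕ :=
  Nat.card {π : Equiv.Perm (Fin n) // ¬ Occurs p A π}

/-- The vincular pattern `(p, A)` has exponential growth. -/
def ExpGrowth {k : ℕ} (p : Equiv.Perm (Fin k)) (A : Finset ℕ) : Prop :=
  ∃ C : ℝ, ∀ n : ℕ, 1 ≤ n → (Av p A n : ℝ) ≤ C ^ n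

end MP_48c8ea_co
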