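import Mathlib

/-!
# A Ramsey lemma for arrays of distinct times
-/

namespace MP_48c8ea_co

/-- either `p` rows separated in time (listed in time order), or many rows
straddling a common time -/
theorem rows_or_point (s : ℕ → ℕ → ℕ) (L : Finset ℕ) (hL : L.Nonempty)
    (M : ℕ) : ∀ (p : ℕ) (J : Finset ℕ),
    (∀ j ∈ J, ∀ l ∈ L, ∀ j' ∈ J, ∀ l' ∈ L, s j l = s j' l' → j = j' ∧ l = l') →
    p * (M + 1) ≤ J.card →
    (∃ lst : List ℕ, lst.length = p ∧ (∀ j ∈ lst, j ∈ J) ∧
      lst.Pairwise (fun j j' => ∀ l ∈ L, ∀ l' ∈ L, s j l < s j' l')) ∨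
    (∃ (t0 : ℕ) (J1 : Finset ℕ), J1 ⊆ J ∧ M ≤ J1.card ∧
      ∀ j ∈ J1, (∃ l ∈ L, s j l ≤ t0) ∧ (∃ l ∈ L, t0 < s j l)) := by
  intro p
  induction p with
  | zero =>
    intro J _ _
    left
    exact ⟨[], rfl, by simp, List.Pairwise.nil⟩
  | succ p ih =>
    intro J hinj hcard
    have hne : J.Nonempty := by
      rw [← Finset.card_pos]
      have : 0 < (p + 1) * (M + 1) := by positivity
      omega
    let hi : ℕ → ℕ := fun j => L.sup (s j)
    obtain ⟨j0, hj0, hmin⟩ := Finset.exists_min_image J hi hne
    have hhi : ∀ j, ∃ l ∈ L, s j l = hi j := by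
      intro j
      obtain ⟨l, hl, hle⟩ := Finset.exists_mem_eq_sup L hL (s j)
      exact ⟨l, hl, hle.symm⟩
    let J0 : Finset ℕ := J.filter (fun j => j ≠ j0 ∧ ∃ l ∈ L, s j l ≤ hi j0)
    have hJ0 : ∀ j ∈ J0, (∃ l ∈ L, s j l ≤ hi j0) ∧ (∃ l ∈ L, hi j0 < s j l) := by
      intro j hj
      rw [Finset.mem_filter] at hj
      refine ⟨hj.2.2, ?_⟩
      obtain ⟨l, hl, hle⟩ := hhi j
      refine ⟨l, hl, ?_⟩
      rw [hle]
      refine lt_of_le_of_ne (hmin j hj.1) ?_
      intro heq
      obtain ⟨l', hl', hle'⟩ := hhi j0
      have := hinj j hj.1 l hl j0 hj0 l' hl' (by rw [hle, hle', heq])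
      exact hj.2.1 this.1
    by_cases hM : M ≤ J0.card
    · right
      exact ⟨hi j0, J0, Finset.filter_subset _ _, hM, hJ0⟩
    · push Not at hM
      let J' : Finset ℕ := J.filter (fun j => j ≠ j0 ∧ ∀ l ∈ L, hi j0 < s j l)
      have hpart : J ⊆ insert j0 (J0 ∪ J') := by
        intro j hj
        by_cases h1 : j = j0
        · subst h1; exact Finset.mem_insert_self _ _
        · apply Finset.mem_insert_of_mem
          rw [Finset.mem_union]
          by_cases h2 : ∃ l ∈ L, s j l ≤ hi j0
          · left; exact Finset.mem_filter.mpr ⟨hj, h1, h2⟩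
          · right
            push Not at h2
            exact Finset.mem_filter.mpr ⟨hj, h1, h2⟩
      have hc : J.card ≤ 1 + (J0.card + J'.card) := by
        calc J.card ≤ (insert j0 (J0 ∪ J')).card := Finset.card_le_card hpart
          _ ≤ (J0 ∪ J').card + 1 := Finset.card_insert_le _ _
          _ ≤ (J0.card + J'.card) + 1 := by
              have := Finset.card_union_le J0 J'
              omega
          _ = _ := by ring
      have hJ'card : p * (M + 1) ≤ J'.card := by
        have : (p + 1) * (M + 1) = p * (M + 1) + (M + 1) := by ring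
        omega
      have hJ'sub : J' ⊆ J := Finset.filter_subset _ _
      rcases ih J' (fun j hj l hl j' hj' l' hl' h =>
          hinj j (hJ'sub hj) l hl j' (hJ'sub hj') l' hl' h) hJ'card with h | h
      · left
        obtain ⟨lst, hlen, hmem, hpw⟩ := h
        refine ⟨j0 :: lst, by simp [hlen], ?_, ?_⟩
        · intro j hj
          rcases List.mem_cons.mp hj with h | h
          · subst h; exact hj0
          · exact hJ'sub (hmem j h)
        · refine List.Pairwise.cons ?_ hpw
          intro j hj l hl l' hl'
          have h1 := (Finset.mem_filter.mp (hmem j hj)).2.2 l' hl'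
          exact lt_of_le_of_lt (Finset.le_sup (f := s j0) hl) h1
      · right
        obtain ⟨t0, J1, hJ1, hM1, h1⟩ := h
        exact ⟨t0, J1, hJ1.trans hJ'sub, hM1, h1⟩

/-- The Ramsey lemma: rows separated on many columns, or columns separated on many rows. -/
theorem ramsey (p κ : ℕ) : ∀ m : ℕ, ∃ F : ℕ, ∀ (s : ℕ → ℕ → ℕ) (J L : Finset ℕ),
    (∀ j ∈ J, ∀ l ∈ L, ∀ j' ∈ J, ∀ l' ∈ L, s j l = s j' l' → j = j' ∧ l = l') →
    L.card = 2 ^ m * (κ + 1) → F ≤ J.card →
    (∃ (rows : List ℕ) (L' : Finset ℕ), rows.length = p ∧ (∀ j ∈ rows, j ∈ J) ∧ L' ⊆ L ∧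
      κ + 1 ≤ L'.card ∧
      rows.Pairwise (fun j j' => ∀ l ∈ L', ∀ l' ∈ L', s j l < s j' l')) ∨
    (∃ (cols : List ℕ) (J' : Finset ℕ), cols.length = m ∧ (∀ l ∈ cols, l ∈ L) ∧ J' ⊆ J ∧
      κ + 1 ≤ J'.card ∧
      cols.Pairwise (fun l l' => ∀ j ∈ J', ∀ j' ∈ J', s j l < s j' l')) := by
  intro m
  induction m with
  | zero =>
    refine ⟨κ + 1, ?_⟩
    intro s J L _ _ hJ
    right
    exact ⟨[], J, rfl, by simp, Finset.Subset.refl _, hJ, List.Pairwise.nil⟩
  | succ m ih =>
    obtain ⟨F, hF⟩ := ih
    refine ⟨p * (2 ^ (2 ^ (m + 1) * (κ + 1)) * F + 1), ?_⟩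
    intro s J L hinj hL hJ
    have hLne : L.Nonempty := by
      rw [← Finset.card_pos, hL]; positivity
    rcases rows_or_point s L hLne _ p J hinj hJ with h | h
    · left
      obtain ⟨lst, hlen, hmem, hpw⟩ := h
      refine ⟨lst, L, hlen, hmem, Finset.Subset.refl _, ?_, hpw⟩
      rw [hL]
      exact Nat.le_mul_of_pos_left _ (by positivity)
    · obtain ⟨t0, J1, hJ1, hM, h1⟩ := h
      -- pigeonhole on the split
      let φ : ℕ → Finset ℕ := fun j => L.filter (fun l => s j l ≤ t0)
      have hφ : ∀ j ∈ J1, φ j ∈ L.powerset := fun j _ =>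
        Finset.mem_powerset.mpr (Finset.filter_subset _ _)
      have hpig : ∃ T ∈ L.powerset, F ≤ (J1.filter (fun j => φ j = T)).card := by
        by_contra hcon
        push Not at hcon
        have hsum := Finset.card_eq_sum_card_fiberwise (s := J1) (t := L.powerset) (f := φ)
          (fun j hj => hφ j hj)
        have hFpos : 0 < F := by
          rcases Nat.eq_zero_or_pos F with h0 | h0
          · exfalso
            have := hcon ∅ (Finset.empty_mem_powerset _)
            omega
          · exact h0
        have hle : ∑ T ∈ L.powerset, (J1.filter (fun j => φ j = T)).card ≤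
            ∑ T ∈ L.powerset, (F - 1) := by
          apply Finset.sum_le_sum
          intro T hT
          have := hcon T hT
          omega
        rw [Finset.sum_const, Finset.card_powerset, hL, smul_eq_mul] at hle
        have h2 : 2 ^ (2 ^ (m + 1) * (κ + 1)) * (F - 1) < 2 ^ (2 ^ (m + 1) * (κ + 1)) * F := by
          apply Nat.mul_lt_mul_of_pos_left
          · omega
          · positivity
        omega
      obtain ⟨T, hT, hFT⟩ := hpig
      let J2 := J1.filter (fun j => φ j = T)
      have hTsub : T ⊆ L := Finset.mem_powerset.mp hT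
      have hle : ∀ j ∈ J2, ∀ l ∈ T, s j l ≤ t0 := by
        intro j hj l hl
        have h2 := (Finset.mem_filter.mp hj).2
        rw [← h2] at hl
        exact (Finset.mem_filter.mp hl).2
      have hgt : ∀ j ∈ J2, ∀ l ∈ L \ T, t0 < s j l := by
        intro j hj l hl
        have h2 := (Finset.mem_filter.mp hj).2
        rw [Finset.mem_sdiff] at hl
        by_contra hcon
        push Not at hcon
        apply hl.2
        rw [← h2]
        exact Finset.mem_filter.mpr ⟨hl.1, hcon⟩
      have hJ2J : J2 ⊆ J := (Finset.filter_subset _ _).trans hJ1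
      by_cases hF0 : J2 = ∅
      · -- then F = 0, use the induction hypothesis with any subset
        have hF00 : F = 0 := by
          have : J2.card = 0 := by rw [hF0]; rfl
          change F ≤ J2.card at hFT
          omega
        obtain ⟨L1, hL1, hL1c⟩ := Finset.exists_subset_card_eq
          (s := L) (n := 2 ^ m * (κ + 1)) (by
            rw [hL, pow_succ]
            have : 2 ^ m * (κ + 1) ≤ 2 ^ m * 2 * (κ + 1) := by
              rw [mul_assoc]
              apply Nat.mul_le_mul_left
              omega
            exact this)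
        rcases hF s ∅ L1 (by simp) hL1c (by simp [hF00]) with h | h
        · obtain ⟨rows, L', hlen, hmem, hL', hL'c, hpw⟩ := h
          left
          refine ⟨rows, L', hlen, ?_, hL'.trans hL1, hL'c, hpw⟩
          intro j hj
          exact absurd (hmem j hj) (by simp)
        · obtain ⟨cols, J', _, _, hJ', hJ'c, _⟩ := h
          exfalso
          have : J'.card ≤ 0 := by
            have := Finset.card_le_card hJ'
            simpa using this
          omega
      · have hJ2ne : J2.Nonempty := Finset.nonempty_iff_ne_empty.mpr hF0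
        obtain ⟨j1, hj1⟩ := hJ2ne
        have hj1' : j1 ∈ J1 := (Finset.mem_filter.mp hj1).1
        have hTne : T.Nonempty := by
          obtain ⟨l, hl, hle1⟩ := (h1 j1 hj1').1
          have h2 := (Finset.mem_filter.mp hj1).2
          refine ⟨l, ?_⟩
          rw [← h2]
          exact Finset.mem_filter.mpr ⟨hl, hle1⟩
        have hTcne : (L \ T).Nonempty := by
          obtain ⟨l, hl, hlt1⟩ := (h1 j1 hj1').2
          refine ⟨l, ?_⟩
          rw [Finset.mem_sdiff]
          refine ⟨hl, fun hlT => ?_⟩
          have := hle j1 hj1 l hlT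
          omega
        have hcards : T.card + (L \ T).card = 2 ^ (m + 1) * (κ + 1) := by
          rw [← hL, add_comm]
          exact Finset.card_sdiff_add_card_eq_card hTsub
        have hbig : 2 ^ m * (κ + 1) ≤ T.card ∨ 2 ^ m * (κ + 1) ≤ (L \ T).card := by
          have h3 : 2 ^ (m + 1) * (κ + 1) = 2 ^ m * (κ + 1) + 2 ^ m * (κ + 1) := by
            rw [pow_succ]; ring
          omega
        rcases hbig with hb | hb
        · obtain ⟨L1, hL1, hL1c⟩ := Finset.exists_subset_card_eq hb
          obtain ⟨l0, hl0⟩ := hTcne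
          rcases hF s J2 L1 (fun j hj l hl j' hj' l' hl' h =>
              hinj j (hJ2J hj) l (hTsub (hL1 hl)) j' (hJ2J hj') l' (hTsub (hL1 hl')) h)
              hL1c hFT with h | h
          · obtain ⟨rows, L', hlen, hmem, hL', hL'c, hpw⟩ := h
            left
            exact ⟨rows, L', hlen, fun j hj => hJ2J (hmem j hj),
              hL'.trans (hL1.trans hTsub), hL'c, hpw⟩
          · obtain ⟨cols, J', hlen, hmem, hJ', hJ'c, hpw⟩ := h
            right
            refine ⟨cols ++ [l0], J', by simp [hlen], ?_, hJ'.trans hJ2J, hJ'c, ?_⟩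
            · intro l hl
              rcases List.mem_append.mp hl with h | h
              · exact hTsub (hL1 (hmem l h))
              · rw [List.mem_singleton] at h
                subst h
                exact (Finset.mem_sdiff.mp hl0).1
            · rw [List.pairwise_append]
              refine ⟨hpw, List.pairwise_singleton _ _, ?_⟩
              intro l hl l' hl' j hj j' hj'
              rw [List.mem_singleton] at hl'
              subst hl'
              have h3 := hle j (hJ' hj) l (hL1 (hmem l hl))
              have h4 := hgt j' (hJ' hj') l' hl0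
              omega
        · obtain ⟨L1, hL1, hL1c⟩ := Finset.exists_subset_card_eq hb
          have hL1L : L1 ⊆ L := hL1.trans Finset.sdiff_subset
          obtain ⟨l0, hl0⟩ := hTne
          rcases hF s J2 L1 (fun j hj l hl j' hj' l' hl' h =>
              hinj j (hJ2J hj) l (hL1L hl) j' (hJ2J hj') l' (hL1L hl') h)
              hL1c hFT with h | h
          · obtain ⟨rows, L', hlen, hmem, hL', hL'c, hpw⟩ := h
            left
            exact ⟨rows, L', hlen, fun j hj => hJ2J (hmem j hj),
              hL'.trans hL1L, hL'c, hpw⟩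
          · obtain ⟨cols, J', hlen, hmem, hJ', hJ'c, hpw⟩ := h
            right
            refine ⟨l0 :: cols, J', by simp [hlen], ?_, hJ'.trans hJ2J, hJ'c, ?_⟩
            · intro l hl
              rcases List.mem_cons.mp hl with h | h
              · subst h; exact hTsub hl0
              · exact hL1L (hmem l h)
            · refine List.Pairwise.cons ?_ hpw
              intro l hl j hj j' hj'
              have h3 := hle j (hJ' hj) l0 hl0
              have h4 := hgt j' (hJ' hj') l (hL1 (hmem l hl))
              omega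

end MP_48c8ea_co
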