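import Mathlib
import Pool.Agent.Lib.MP_48c8ea_co.Defs

/-!
# Permutations as functions on the naturals; crossing segments and the visible stack
-/

namespace MP_48c8ea_co

open Finset

/-- a permutation of `{0,…,n-1}` together with its inverse, as functions on the naturals -/
structure PD (n : ℕ) where
  a : ℕ → ℕ
  τ : ℕ → ℕ
  a_lt : ∀ t < n, a t < n
  τ_lt : ∀ w < n, τ w < n
  τ_a : ∀ t < n, τ (a t) = t
  a_τ : ∀ w < n, a (τ w) = w

/-- the data of a permutation -/
def PD.of {n : ℕ} (π : Equiv.Perm (Fin n)) : PD n where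
  a := fun t => if h : t < n then (π ⟨t, h⟩ : ℕ) else 0
  τ := fun w => if h : w < n then (π.symm ⟨w, h⟩ : ℕ) else 0
  a_lt := by
    intro t ht
    simp only [ht, dite_true]
    exact (π ⟨t, ht⟩).2
  τ_lt := by
    intro w hw
    simp only [hw, dite_true]
    exact (π.symm ⟨w, hw⟩).2
  τ_a := by
    intro t ht
    simp [ht]
  a_τ := by
    intro w hw
    simp [hw]

theorem PD.of_a {n : ℕ} (π : Equiv.Perm (Fin n)) (t : Fin n) : (PD.of π).a t = π t := by
  simp [PD.of]

theorem PD.of_injective {n : ℕ} (π ρ : Equiv.Perm (Fin n))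
    (h : ∀ t < n, (PD.of π).a t = (PD.of ρ).a t) : π = ρ := by
  ext t
  rw [← PD.of_a, ← PD.of_a]
  exact h t t.2

namespace PD

variable {n : ℕ} (D : PD n)

/-- the ascent from position `t` to `t+1` jumps over the value `w` -/
def X (t w : ℕ) : Prop := t + 1 < n ∧ D.a t < w ∧ w < D.a (t + 1)

theorem X_lt {t w : ℕ} (h : D.X t w) : w < n :=
  h.2.2.trans (D.a_lt _ h.1)

theorem X_ne {t w : ℕ} (h : D.X t w) : D.τ w ≠ t := by
  intro h1
  have h2 := D.a_τ w (D.X_lt h)
  rw [h1] at h2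
  have := h.2.1
  omega

theorem X_ne' {t w : ℕ} (h : D.X t w) : D.τ w ≠ t + 1 := by
  intro h1
  have h2 := D.a_τ w (D.X_lt h)
  rw [h1] at h2
  have := h.2.2
  omega

open Classical in
/-- the values visible at time `e` -/
noncomputable def Stk (e : ℕ) : Finset ℕ :=
  (range n).filter (fun w => ∀ t, D.X t w → (t < e ↔ t < D.τ w))

theorem mem_Stk {e w : ℕ} : w ∈ D.Stk e ↔ w < n ∧ ∀ t, D.X t w → (t < e ↔ t < D.τ w) := by
  simp [Stk]

theorem tie {b w t : ℕ} (hw : w ∈ D.Stk (b + 1)) (ht : D.X t w) :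
    (b < t → D.τ w < t) ∧ (t < b → t < D.τ w) := by
  have h1 := (D.mem_Stk.mp hw).2 t ht
  have h2 := D.X_ne ht
  constructor
  · intro hb
    by_contra hcon
    have : t < D.τ w := by omega
    have := h1.mpr this
    omega
  · intro hb
    exact h1.mp (by omega)

theorem a_mem_Stk {e : ℕ} (he : e < n) : D.a e ∈ D.Stk e := by
  rw [mem_Stk]
  refine ⟨D.a_lt e he, fun t _ => ?_⟩
  rw [D.τ_a e he]

theorem a_succ_mem_Stk {e : ℕ} (he : e + 1 < n) : D.a (e + 1) ∈ D.Stk e := by
  rw [mem_Stk]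
  refine ⟨D.a_lt _ he, fun t ht => ?_⟩
  rw [D.τ_a _ he]
  have : t ≠ e := by
    rintro rfl
    exact lt_irrefl _ ht.2.2
  omega

theorem a_mem_Stk_succ {e : ℕ} (he : e < n) : D.a e ∈ D.Stk (e + 1) := by
  rw [mem_Stk]
  refine ⟨D.a_lt _ he, fun t ht => ?_⟩
  rw [D.τ_a _ he]
  have : t ≠ e := by
    rintro rfl
    exact lt_irrefl _ ht.2.1
  omega

/-- `u` is jumped over before it is placed -/
def NI (u : ℕ) : Prop := ∃ t, D.X t u ∧ t < D.τ u

open Classical in
/-- the last time `u` is jumped over before it is placed -/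
noncomputable def birth (u : ℕ) : ℕ :=
  ((range n).filter (fun t => D.X t u ∧ t < D.τ u)).sup id

theorem birth_spec {u : ℕ} (h : D.NI u) :
    D.X (D.birth u) u ∧ D.birth u < D.τ u ∧ ∀ t, D.X t u → t < D.τ u → t ≤ D.birth u := by
  classical
  have hmem : ∀ t, t ∈ (range n).filter (fun t => D.X t u ∧ t < D.τ u) ↔
      (D.X t u ∧ t < D.τ u) := by
    intro t
    rw [mem_filter, mem_range]
    refine ⟨fun h => h.2, fun h => ⟨?_, h⟩⟩
    have := h.1.1
    omega
  obtain ⟨t, ht⟩ := h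
  have hne : ((range n).filter (fun t => D.X t u ∧ t < D.τ u)).Nonempty := ⟨t, (hmem t).mpr ht⟩
  obtain ⟨b, hb, hbe⟩ := Finset.exists_mem_eq_sup _ hne (id : ℕ → ℕ)
  have hbirth : D.birth u = b := by
    unfold birth
    exact hbe
  rw [hmem] at hb
  rw [hbirth]
  refine ⟨hb.1, hb.2, fun t ht1 ht2 => ?_⟩
  rw [← hbirth]
  unfold birth
  exact Finset.le_sup (f := (id : ℕ → ℕ)) (by
    have := (hmem t).mpr ⟨ht1, ht2⟩
    convert this)

theorem mem_Stk_birth {u : ℕ} (h : D.NI u) : u ∈ D.Stk (D.birth u + 1) := by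
  obtain ⟨h1, h2, h3⟩ := D.birth_spec h
  rw [mem_Stk]
  refine ⟨D.X_lt h1, fun t ht => ?_⟩
  constructor
  · intro h4; omega
  · intro h4
    have := h3 t ht h4
    omega

open Classical in
/-- the visible value directly below `u` at its birth -/
noncomputable def nb (u : ℕ) : ℕ := ((D.Stk (D.birth u + 1)).filter (fun w => w < u)).sup id

theorem nb_spec {u : ℕ} (h : D.NI u) :
    D.nb u ∈ D.Stk (D.birth u + 1) ∧ D.nb u < u ∧ D.a (D.birth u) ≤ D.nb u ∧
      ∀ w ∈ D.Stk (D.birth u + 1), w < u → w ≤ D.nb u := by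
  classical
  obtain ⟨h1, h2, h3⟩ := D.birth_spec h
  have hbn : D.birth u < n := by have := h1.1; omega
  have hmem : D.a (D.birth u) ∈ (D.Stk (D.birth u + 1)).filter (fun w => w < u) :=
    mem_filter.mpr ⟨D.a_mem_Stk_succ hbn, h1.2.1⟩
  obtain ⟨v, hv, hve⟩ := Finset.exists_mem_eq_sup _ ⟨_, hmem⟩ (id : ℕ → ℕ)
  have hnb : D.nb u = v := by
    unfold nb
    exact hve
  have hle : ∀ w ∈ (D.Stk (D.birth u + 1)).filter (fun w => w < u), w ≤ D.nb u := by
    intro w hw
    unfold nb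
    exact Finset.le_sup (f := (id : ℕ → ℕ)) (by convert hw)
  have hv2 := mem_filter.mp hv
  refine ⟨by rw [hnb]; exact hv2.1, by rw [hnb]; exact hv2.2, hle _ hmem, ?_⟩
  intro w hw hwu
  exact hle w (mem_filter.mpr ⟨hw, hwu⟩)

open Classical in
/-- the pairs (lower neighbour, value) -/
noncomputable def B : Finset (ℕ × ℕ) :=
  ((range n).filter (fun u => D.NI u)).image (fun u => (D.nb u, u))

theorem mem_B {v u : ℕ} : (v, u) ∈ D.B ↔ D.NI u ∧ v = D.nb u := by
  classical
  unfold B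
  rw [mem_image]
  constructor
  · rintro ⟨u', hu', h⟩
    rw [Prod.mk.injEq] at h
    obtain ⟨h1, h2⟩ := h
    subst h2
    exact ⟨(mem_filter.mp hu').2, h1.symm⟩
  · rintro ⟨h1, h2⟩
    refine ⟨u, mem_filter.mpr ⟨mem_range.mpr ?_, h1⟩, by rw [h2]⟩
    obtain ⟨t, ht, _⟩ := h1
    exact D.X_lt ht

/-- the window of the birth segment contains the interval from the neighbour to the value -/
theorem B_window {v u : ℕ} (h : (v, u) ∈ D.B) {w : ℕ} (h1 : v < w) (h2 : w < u) :
    D.X (D.birth u) w := by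
  rw [mem_B] at h
  obtain ⟨hni, hv⟩ := h
  obtain ⟨g1, g2, g3⟩ := D.birth_spec hni
  obtain ⟨k1, k2, k3, k4⟩ := D.nb_spec hni
  exact ⟨g1.1, by omega, by have := g1.2.2; omega⟩

theorem B_lt {v u : ℕ} (h : (v, u) ∈ D.B) : v < u := by
  rw [mem_B] at h
  have := (D.nb_spec h.1).2.1
  omega

theorem B_lt_n {v u : ℕ} (h : (v, u) ∈ D.B) : u < n := by
  rw [mem_B] at h
  exact D.X_lt (D.birth_spec h.1).1

theorem B_mem_left {v u : ℕ} (h : (v, u) ∈ D.B) : v ∈ D.Stk (D.birth u + 1) := by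
  rw [mem_B] at h
  rw [h.2]
  exact (D.nb_spec h.1).1

theorem B_mem_right {v u : ℕ} (h : (v, u) ∈ D.B) : u ∈ D.Stk (D.birth u + 1) := by
  rw [mem_B] at h
  exact D.mem_Stk_birth h.1

/-- two pairs with the same birth time do not overlap -/
theorem B_inj {v u v' u' : ℕ} (h : (v, u) ∈ D.B) (h' : (v', u') ∈ D.B)
    (hb : D.birth u = D.birth u') (h1 : v' < u) (h2 : v < u') : u = u' ∧ v = v' := by
  have key : ∀ v u v' u' : ℕ, (v, u) ∈ D.B → (v', u') ∈ D.B → D.birth u = D.birth u' →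
      v' < u → v < u' → ¬ u < u' := by
    intro v u v' u' h h' hb h1 h2 hlt
    have h3 := D.B_mem_right h
    rw [hb] at h3
    rw [mem_B] at h'
    have := (D.nb_spec h'.1).2.2.2 u h3 hlt
    omega
  have e1 := key v u v' u' h h' hb h1 h2
  have e2 := key v' u' v u h' h hb.symm h2 h1
  have e3 : u = u' := by omega
  refine ⟨e3, ?_⟩
  subst e3
  rw [mem_B] at h h'
  rw [h.2, h'.2]

end PD

/-- an array of values tied to separated times, with crossing windows in between, produces an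
occurrence -/
theorem occurs_of_array {k n : ℕ} (p : Equiv.Perm (Fin k)) (j : ℕ) (hj : j + 1 < k)
    (hp0 : (p ⟨j, Nat.lt_of_succ_lt hj⟩ : ℕ) = 0) (hp1 : (p ⟨j + 1, hj⟩ : ℕ) = k - 1)
    (π : Equiv.Perm (Fin n)) (w b : ℕ → ℕ → ℕ) (σ : ℕ → ℕ)
    (hX : ∀ c < 2 * k, ∀ c' < 2 * k, ∀ r < k, (PD.of π).X (σ c) (w c' r))
    (h1 : ∀ c c', c < c' → c' < 2 * k → ∀ r < k, b c r < σ c')
    (h2 : ∀ c c', c < c' → c' < 2 * k → ∀ r < k, σ c < b c' r)
    (htie : ∀ c < 2 * k, ∀ r < k, ∀ t, (PD.of π).X t (w c r) →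
      (b c r < t → (PD.of π).τ (w c r) < t) ∧ (t < b c r → t < (PD.of π).τ (w c r)))
    (hrow : ∀ c < 2 * k, ∀ c' < 2 * k, ∀ r r', r < r' → r' < k → w c r < w c' r') :
    Occurs p {j} π := by
  set D := PD.of π with hD
  -- positions
  let q : Fin k → ℕ := fun e =>
    if (e : ℕ) = j then σ (2 * j + 1) else
      if (e : ℕ) = j + 1 then σ (2 * j + 1) + 1 else D.τ (w (2 * (e : ℕ)) (p e : ℕ))
  have hk0 : 0 < k := by omega
  have hσn : ∀ c < 2 * k, σ c + 1 < n := fun c hc => (hX c hc c hc 0 hk0).1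
  have hwn : ∀ c < 2 * k, ∀ r < k, w c r < n := fun c hc r hr => D.X_lt (hX c hc c hc r hr)
  have hq : ∀ e, q e < n := by
    intro e
    have he := e.2
    simp only [q]
    split_ifs with g1 g2
    · have := hσn (2 * j + 1) (by omega); omega
    · exact hσn (2 * j + 1) (by omega)
    · exact D.τ_lt _ (hwn _ (by omega) _ (p e).2)
  have before : ∀ c c', c < c' → c' < 2 * k → ∀ r < k, D.τ (w c r) < σ c' := by
    intro c c' hcc hc' r hr
    have hc : c < 2 * k := by omega
    exact (htie c hc r hr (σ c') (hX c' hc' c hc r hr)).1 (h1 c c' hcc hc' r hr)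
  have after : ∀ c c', c < c' → c' < 2 * k → ∀ r < k, σ c + 1 < D.τ (w c' r) := by
    intro c c' hcc hc' r hr
    have hc : c < 2 * k := by omega
    have hx := hX c hc c' hc' r hr
    have g1 := (htie c' hc' r hr (σ c) hx).2 (h2 c c' hcc hc' r hr)
    have g2 := D.X_ne' hx
    omega
  -- values
  have hval : ∀ e : Fin k, D.a (q e) = if (e : ℕ) = j then D.a (σ (2 * j + 1)) else
      if (e : ℕ) = j + 1 then D.a (σ (2 * j + 1) + 1) else w (2 * (e : ℕ)) (p e : ℕ) := by
    intro e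
    have he := e.2
    simp only [q]
    split_ifs with g1 g2
    · rfl
    · rfl
    · exact D.a_τ _ (hwn _ (by omega) _ (p e).2)
  have hmono : ∀ e e' : Fin k, e < e' → q e < q e' := by
    intro e e' hee
    have hee' : (e : ℕ) < (e' : ℕ) := hee
    have he := e.2
    have he' := e'.2
    simp only [q]
    split_ifs with g1 g2 g3 g4 g5 g6 g7 g8
    · omega
    · omega
    · have := after (2 * j + 1) (2 * (e' : ℕ)) (by omega) (by omega) (p e' : ℕ) (p e').2
      omega
    · omega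
    · omega
    · exact after (2 * j + 1) (2 * (e' : ℕ)) (by omega) (by omega) (p e' : ℕ) (p e').2
    · exact before (2 * (e : ℕ)) (2 * j + 1) (by omega) (by omega) (p e : ℕ) (p e).2
    · have := before (2 * (e : ℕ)) (2 * j + 1) (by omega) (by omega) (p e : ℕ) (p e).2
      omega
    · have g9 := before (2 * (e : ℕ)) (2 * (e : ℕ) + 1) (by omega) (by omega) (p e : ℕ) (p e).2
      have g10 := after (2 * (e : ℕ) + 1) (2 * (e' : ℕ)) (by omega) (by omega) (p e' : ℕ) (p e').2
      omega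
  have hcmp : ∀ e e' : Fin k, p e < p e' → D.a (q e) < D.a (q e') := by
    intro e e' hpp
    have hpp' : (p e : ℕ) < (p e' : ℕ) := hpp
    have he := e.2
    have he' := e'.2
    have hpe := (p e).2
    have hpe' := (p e').2
    have hne : (e : ℕ) ≠ (e' : ℕ) := by
      intro h
      have : e = e' := Fin.ext h
      subst this
      exact lt_irrefl _ hpp
    have hEj : ∀ x : Fin k, (x : ℕ) = j → (p x : ℕ) = 0 := by
      intro x hx
      have : x = ⟨j, Nat.lt_of_succ_lt hj⟩ := Fin.ext hx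
      rw [this]; exact hp0
    have hEj1 : ∀ x : Fin k, (x : ℕ) = j + 1 → (p x : ℕ) = k - 1 := by
      intro x hx
      have : x = ⟨j + 1, hj⟩ := Fin.ext hx
      rw [this]; exact hp1
    have q1 := hEj e
    have q2 := hEj e'
    have q3 := hEj1 e
    have q4 := hEj1 e'
    rw [hval, hval]
    by_cases g1 : (e : ℕ) = j
    · rw [if_pos g1, if_neg (by omega)]
      by_cases g2 : (e' : ℕ) = j + 1
      · rw [if_pos g2]
        have := (hX (2 * j + 1) (by omega) 0 (by omega) 0 hk0).2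
        omega
      · rw [if_neg g2]
        exact (hX (2 * j + 1) (by omega) (2 * (e' : ℕ)) (by omega) (p e' : ℕ) hpe').2.1
    · rw [if_neg g1]
      by_cases g3 : (e : ℕ) = j + 1
      · exfalso
        have := q3 g3
        omega
      · rw [if_neg g3]
        by_cases g4 : (e' : ℕ) = j
        · exfalso
          have := q2 g4
          omega
        · rw [if_neg g4]
          by_cases g5 : (e' : ℕ) = j + 1
          · rw [if_pos g5]
            exact (hX (2 * j + 1) (by omega) (2 * (e : ℕ)) (by omega) (p e : ℕ) hpe).2.2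
          · rw [if_neg g5]
            exact hrow _ (by omega) _ (by omega) _ _ hpp' hpe'
  refine ⟨fun e => ⟨q e, hq e⟩, ?_, ?_, ?_⟩
  · intro e e' hee
    exact hmono e e' hee
  · intro e e'
    have hva : ∀ x : Fin k, ((π ⟨q x, hq x⟩ : Fin n) : ℕ) = D.a (q x) := by
      intro x
      rw [hD, ← PD.of_a]
    rw [Fin.lt_def, hva, hva]
    constructor
    · intro h
      by_contra hcon
      rcases eq_or_lt_of_le (not_lt.mp hcon) with h3 | h3
      · have := p.injective h3
        subst this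
        exact lt_irrefl _ h
      · have := hcmp e' e h3
        omega
    · exact hcmp e e'
  · intro j' hj' hmem
    rw [mem_singleton] at hmem
    subst hmem
    simp [q]

end MP_48c8ea_co
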