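import Mathlib
import Pool.Agent.Lib.MP_48c8ea_co.Defs
import Pool.Agent.Lib.MP_48c8ea_co.Ramsey
import Pool.Agent.Lib.MP_48c8ea_co.Struct

/-!
# No large arrays
-/

namespace MP_48c8ea_co

open Finset

/-- there is no `R × R` array of pairs `(v i l, u i l)` of `B`, with the `v` increasing in the row
index, the `u` increasing in the column index and all `v` below all `u` -/
def NoArray (B : Finset (ℕ × ℕ)) (R : ℕ) : Prop :=
  ¬ ∃ v u : ℕ → ℕ → ℕ, (∀ i < R, ∀ l < R, (v i l, u i l) ∈ B) ∧
    (∀ i i', i < i' → i' < R → ∀ l < R, ∀ l' < R, v i l < v i' l') ∧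
    (∀ l l', l < l' → l' < R → ∀ i < R, ∀ i' < R, u i l < u i' l') ∧
    (∀ i < R, ∀ l < R, ∀ i' < R, ∀ l' < R, v i l < u i' l')

theorem no_array (k : ℕ) : ∃ R : ℕ, ∀ (p : Equiv.Perm (Fin k)) (j : ℕ) (hj : j + 1 < k),
    (p ⟨j, Nat.lt_of_succ_lt hj⟩ : ℕ) = 0 → (p ⟨j + 1, hj⟩ : ℕ) = k - 1 →
    ∀ (n : ℕ) (π : Equiv.Perm (Fin n)), ¬ Occurs p {j} π → NoArray (PD.of π).B R := by
  obtain ⟨F, hF⟩ := ramsey (2 * k) k (2 * k)
  refine ⟨max F (2 ^ (2 * k) * (k + 1)), ?_⟩
  intro p j hj hp0 hp1 n π hocc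
  rintro ⟨v, u, hB, hv, hu, hvu⟩
  set R := max F (2 ^ (2 * k) * (k + 1)) with hR
  set D := PD.of π with hD
  have hLR : 2 ^ (2 * k) * (k + 1) ≤ R := le_max_right _ _
  have hFR : F ≤ R := le_max_left _ _
  let s : ℕ → ℕ → ℕ := fun i l => D.birth (u i l)
  have hinj : ∀ i ∈ range R, ∀ l ∈ range (2 ^ (2 * k) * (k + 1)), ∀ i' ∈ range R,
      ∀ l' ∈ range (2 ^ (2 * k) * (k + 1)), s i l = s i' l' → i = i' ∧ l = l' := by
    intro i hi l hl i' hi' l' hl' h
    rw [mem_range] at hi hl hi' hl'
    have hl2 : l < R := by omega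
    have hl2' : l' < R := by omega
    obtain ⟨e1, e2⟩ := D.B_inj (hB i hi l hl2) (hB i' hi' l' hl2') h
      (hvu i' hi' l' hl2' i hi l hl2) (hvu i hi l hl2 i' hi' l' hl2')
    constructor
    · rcases lt_trichotomy i i' with h3 | h3 | h3
      · have := hv i i' h3 hi' l hl2 l' hl2'; omega
      · exact h3
      · have := hv i' i h3 hi l' hl2' l hl2; omega
    · rcases lt_trichotomy l l' with h3 | h3 | h3
      · have := hu l l' h3 hl2' i hi i' hi'; omega
      · exact h3
      · have := hu l' l h3 hl2 i' hi' i hi; omega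
  rcases hF s (range R) (range (2 ^ (2 * k) * (k + 1))) hinj (card_range _)
    (by rw [card_range]; exact hFR) with h | h
  · obtain ⟨rows, L', hlen, hmem, hL', hL'c, hpw⟩ := h
    have hne : L'.Nonempty := by rw [← card_pos]; omega
    set ls := L'.max' hne with hls
    have hlsm : ls ∈ L' := L'.max'_mem hne
    have hc : k ≤ (L'.erase ls).card := by
      rw [card_erase_of_mem hlsm]; omega
    let emb := (L'.erase ls).orderEmbOfCardLe hc
    let f : ℕ → ℕ := fun r => if h : r < k then emb ⟨r, h⟩ else 0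
    have hf : ∀ r < k, f r ∈ L'.erase ls := by
      intro r hr
      simp only [f, hr, dite_true]
      exact orderEmbOfCardLe_mem _ hc _
    have hfL : ∀ r < k, f r ∈ L' := fun r hr => mem_of_mem_erase (hf r hr)
    have hflt : ∀ r < k, f r < ls := by
      intro r hr
      exact lt_of_le_of_ne (L'.le_max' _ (hfL r hr)) (ne_of_mem_erase (hf r hr))
    have hfmono : ∀ r r', r < r' → r' < k → f r < f r' := by
      intro r r' h1 h2
      simp only [f, h2, h1.trans h2, dite_true]
      exact emb.lt_iff_lt.mpr h1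
    have hLR' : ∀ l ∈ L', l < R := by
      intro l hl
      have := mem_range.mp (hL' hl)
      omega
    let g : ℕ → ℕ := fun c => rows.getD c 0
    have hg : ∀ c < 2 * k, g c < R := by
      intro c hc
      have hc' : c < rows.length := by rw [hlen]; exact hc
      simp only [g]
      rw [List.getD_eq_getElem _ _ hc']
      exact mem_range.mp (hmem _ (List.getElem_mem hc'))
    have hgpw : ∀ c c', c < c' → c' < 2 * k → ∀ l ∈ L', ∀ l' ∈ L', s (g c) l < s (g c') l' := by
      intro c c' h1 h2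
      have hc' : c' < rows.length := by rw [hlen]; exact h2
      have hc1 : c < rows.length := by omega
      simp only [g]
      rw [List.getD_eq_getElem _ _ hc', List.getD_eq_getElem _ _ hc1]
      exact (List.pairwise_iff_getElem.mp hpw) c c' hc1 hc' h1
    apply hocc
    apply occurs_of_array p j hj hp0 hp1 π (fun c r => u (g c) (f r))
      (fun c r => D.birth (u (g c) (f r))) (fun c => D.birth (u (g c) ls))
    · intro c hc c' hc' r hr
      exact D.B_window (hB (g c) (hg c hc) ls (hLR' _ hlsm))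
        (hvu _ (hg c hc) _ (hLR' _ hlsm) _ (hg c' hc') _ (hLR' _ (hfL r hr)))
        (hu _ _ (hflt r hr) (hLR' _ hlsm) _ (hg c' hc') _ (hg c hc))
    · intro c c' h1 h2 r hr
      exact hgpw c c' h1 h2 _ (hfL r hr) _ hlsm
    · intro c c' h1 h2 r hr
      exact hgpw c c' h1 h2 _ hlsm _ (hfL r hr)
    · intro c hc r hr t ht
      exact D.tie (D.B_mem_right (hB (g c) (hg c hc) _ (hLR' _ (hfL r hr)))) ht
    · intro c hc c' hc' r r' h1 h2
      exact hu _ _ (hfmono r r' h1 h2) (hLR' _ (hfL r' h2)) _ (hg c hc) _ (hg c' hc')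
  · obtain ⟨cols, J', hlen, hmem, hJ', hJ'c, hpw⟩ := h
    have hne : J'.Nonempty := by rw [← card_pos]; omega
    set js := J'.min' hne with hjs
    have hjsm : js ∈ J' := J'.min'_mem hne
    have hc : k ≤ (J'.erase js).card := by
      rw [card_erase_of_mem hjsm]; omega
    let emb := (J'.erase js).orderEmbOfCardLe hc
    let f : ℕ → ℕ := fun r => if h : r < k then emb ⟨r, h⟩ else 0
    have hf : ∀ r < k, f r ∈ J'.erase js := by
      intro r hr
      simp only [f, hr, dite_true]
      exact orderEmbOfCardLe_mem _ hc _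
    have hfJ : ∀ r < k, f r ∈ J' := fun r hr => mem_of_mem_erase (hf r hr)
    have hflt : ∀ r < k, js < f r := by
      intro r hr
      exact lt_of_le_of_ne (J'.min'_le _ (hfJ r hr)) (Ne.symm (ne_of_mem_erase (hf r hr)))
    have hfmono : ∀ r r', r < r' → r' < k → f r < f r' := by
      intro r r' h1 h2
      simp only [f, h2, h1.trans h2, dite_true]
      exact emb.lt_iff_lt.mpr h1
    have hJR' : ∀ l ∈ J', l < R := fun l hl => mem_range.mp (hJ' hl)
    let g : ℕ → ℕ := fun c => cols.getD c 0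
    have hg : ∀ c < 2 * k, g c < R := by
      intro c hc
      have hc' : c < cols.length := by rw [hlen]; exact hc
      simp only [g]
      rw [List.getD_eq_getElem _ _ hc']
      have := mem_range.mp (hmem _ (List.getElem_mem hc'))
      omega
    have hgpw : ∀ c c', c < c' → c' < 2 * k → ∀ i ∈ J', ∀ i' ∈ J', s i (g c) < s i' (g c') := by
      intro c c' h1 h2
      have hc' : c' < cols.length := by rw [hlen]; exact h2
      have hc1 : c < cols.length := by omega
      simp only [g]
      rw [List.getD_eq_getElem _ _ hc', List.getD_eq_getElem _ _ hc1]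
      exact (List.pairwise_iff_getElem.mp hpw) c c' hc1 hc' h1
    apply hocc
    apply occurs_of_array p j hj hp0 hp1 π (fun c r => v (f r) (g c))
      (fun c r => D.birth (u (f r) (g c))) (fun c => D.birth (u js (g c)))
    · intro c hc c' hc' r hr
      exact D.B_window (hB js (hJR' _ hjsm) (g c) (hg c hc))
        (hv _ _ (hflt r hr) (hJR' _ (hfJ r hr)) _ (hg c hc) _ (hg c' hc'))
        (hvu _ (hJR' _ (hfJ r hr)) _ (hg c' hc') _ (hJR' _ hjsm) _ (hg c hc))
    · intro c c' h1 h2 r hr
      exact hgpw c c' h1 h2 _ (hfJ r hr) _ hjsm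
    · intro c c' h1 h2 r hr
      exact hgpw c c' h1 h2 _ hjsm _ (hfJ r hr)
    · intro c hc r hr t ht
      exact D.tie (D.B_mem_left (hB _ (hJR' _ (hfJ r hr)) (g c) (hg c hc))) ht
    · intro c hc c' hc' r r' h1 h2
      exact hv _ _ (hfmono r r' h1 h2) (hJR' _ (hfJ r' h2)) _ (hg c hc) _ (hg c' hc')

end MP_48c8ea_co
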