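import Mathlib
import Pool.Agent.Lib.MP_48c8ea_co.Struct

/-!
# A permutation is determined by its pairs and a code of linear length
-/

namespace MP_48c8ea_co

open Finset

namespace PD

variable {n : ℕ} (D : PD n)

theorem succ_of_not_X {t w : ℕ} (h : ¬ D.X t w) : w ∈ D.Stk (t + 1) ↔ w ∈ D.Stk t := by
  rw [mem_Stk, mem_Stk]
  apply and_congr_right
  intro _
  apply forall_congr'
  intro t'
  by_cases ht : t' = t
  · subst ht
    exact ⟨fun _ h1 => absurd h1 h, fun _ h1 => absurd h1 h⟩
  · have : t' < t + 1 ↔ t' < t := by omega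
    rw [this]

theorem succ_of_X {t w : ℕ} (h : D.X t w) :
    w ∈ D.Stk (t + 1) ↔ D.NI w ∧ D.birth w = t := by
  constructor
  · intro hw
    rw [mem_Stk] at hw
    have h1 : t < D.τ w := (hw.2 t h).mp (by omega)
    have hni : D.NI w := ⟨t, h, h1⟩
    refine ⟨hni, ?_⟩
    obtain ⟨g1, g2, g3⟩ := D.birth_spec hni
    have g4 := g3 t h h1
    have g5 := (hw.2 _ g1).mpr g2
    omega
  · rintro ⟨h1, h2⟩
    rw [← h2]
    exact D.mem_Stk_birth h1

theorem Stk_succ_of_descent {t : ℕ} (h : ¬ D.a t < D.a (t + 1)) : D.Stk (t + 1) = D.Stk t := by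
  ext w
  apply D.succ_of_not_X
  rintro ⟨_, h1, h2⟩
  omega

/-- the elements of the stack strictly between the values at positions `t` and `t + 1` -/
noncomputable def betw (t : ℕ) : Finset ℕ :=
  (D.Stk t).filter (fun w => (D.a t < w ∧ w < D.a (t + 1)) ∨ (D.a (t + 1) < w ∧ w < D.a t))

/-- the code letter of the step from `t` to `t + 1` -/
noncomputable def ltr (t : ℕ) : ℕ := 2 * (D.betw t).card + (if D.a t < D.a (t + 1) then 1 else 0)

open Classical in
/-- the values whose lower neighbour at birth is the foot of the birth segment -/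
noncomputable def T : Finset ℕ :=
  (range n).filter (fun u => D.NI u ∧ D.nb u = D.a (D.birth u))

theorem mem_T {u : ℕ} : u ∈ D.T ↔ D.NI u ∧ D.nb u = D.a (D.birth u) := by
  classical
  unfold T
  rw [mem_filter, mem_range]
  refine ⟨fun h => h.2, fun h => ⟨?_, h⟩⟩
  obtain ⟨t, ht, _⟩ := h.1
  exact D.X_lt ht

theorem birth_transfer (D' : PD n) (hB : D.B = D'.B) (hT : D.T = D'.T) {t : ℕ} (ht : t + 1 < n)
    (ha : D.a t = D'.a t) : ∀ w, D.NI w → D.birth w = t → D'.NI w ∧ D'.birth w = t := by
  intro w
  induction w using Nat.strong_induction_on with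
  | _ w ih =>
    intro hni hb
    have h1 : (D.nb w, w) ∈ D.B := D.mem_B.mpr ⟨hni, rfl⟩
    rw [hB, D'.mem_B] at h1
    obtain ⟨hni', hnb⟩ := h1
    refine ⟨hni', ?_⟩
    obtain ⟨g1, g2, g3⟩ := D.birth_spec hni
    obtain ⟨k1, k2, k3, k4⟩ := D.nb_spec hni
    obtain ⟨g1', g2', g3'⟩ := D'.birth_spec hni'
    obtain ⟨k1', k2', k3', k4'⟩ := D'.nb_spec hni'
    by_cases hc : w ∈ D.T
    · have hc' : w ∈ D'.T := by rw [← hT]; exact hc
      rw [mem_T] at hc hc'
      have e1 : D'.a (D'.birth w) = D'.a t := by
        rw [← hc'.2, ← hnb, hc.2, hb, ha]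
      have e2 := congrArg D'.τ e1
      have g1'' := g1'.1
      rw [D'.τ_a _ (by omega), D'.τ_a _ (by omega)] at e2
      exact e2
    · have hc' : w ∉ D'.T := by rw [← hT]; exact hc
      rw [mem_T] at hc hc'
      have hc1 : D.nb w ≠ D.a (D.birth w) := fun h => hc ⟨hni, h⟩
      have hc2 : D'.nb w ≠ D'.a (D'.birth w) := fun h => hc' ⟨hni', h⟩
      have hX : D.X (D.birth w) (D.nb w) := ⟨g1.1, by omega, by have := g1.2.2; omega⟩
      have hX' : D'.X (D'.birth w) (D'.nb w) := ⟨g1'.1, by omega, by have := g1'.2.2; omega⟩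
      have e1 := (D.succ_of_X hX).mp k1
      have e2 := (D'.succ_of_X hX').mp k1'
      have e3 := ih (D.nb w) k2 e1.1 (by rw [e1.2, hb])
      rw [hnb, e2.2] at e3
      exact e3.2

theorem decode (D' : PD n) (h0 : D.a 0 = D'.a 0) (hS0 : D.Stk 0 = D'.Stk 0) (hB : D.B = D'.B)
    (hT : D.T = D'.T) (hl : ∀ t, t + 1 < n → D.ltr t = D'.ltr t) :
    ∀ t, t < n → D.a t = D'.a t ∧ D.Stk t = D'.Stk t := by
  intro t
  induction t with
  | zero => intro _; exact ⟨h0, hS0⟩
  | succ t ih =>
    intro ht
    obtain ⟨ha, hS⟩ := ih (by omega)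
    have hlt := hl t ht
    unfold ltr at hlt
    have hdir : D.a t < D.a (t + 1) ↔ D'.a t < D'.a (t + 1) := by
      by_cases h1 : D.a t < D.a (t + 1) <;> by_cases h2 : D'.a t < D'.a (t + 1)
      · exact ⟨fun _ => h2, fun _ => h1⟩
      · exfalso; rw [if_pos h1, if_neg h2] at hlt; omega
      · exfalso; rw [if_neg h1, if_pos h2] at hlt; omega
      · exact ⟨fun h => absurd h h1, fun h => absurd h h2⟩
    have hcnt : (D.betw t).card = (D'.betw t).card := by
      by_cases h1 : D.a t < D.a (t + 1)
      · rw [if_pos h1, if_pos (hdir.mp h1)] at hlt; omega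
      · rw [if_neg h1, if_neg (fun h => h1 (hdir.mpr h))] at hlt; omega
    have hne : D.a t ≠ D.a (t + 1) := by
      intro h
      have h1 := congrArg D.τ h
      rw [D.τ_a _ (by omega), D.τ_a _ ht] at h1
      omega
    have hne' : D'.a t ≠ D'.a (t + 1) := by
      intro h
      have h1 := congrArg D'.τ h
      rw [D'.τ_a _ (by omega), D'.τ_a _ ht] at h1
      omega
    have hmem := D.a_succ_mem_Stk ht
    have hmem' := D'.a_succ_mem_Stk ht
    have hanext : D.a (t + 1) = D'.a (t + 1) := by
      by_contra hcon
      rcases lt_or_gt_of_ne hcon with h3 | h3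
      · by_cases h1 : D.a t < D.a (t + 1)
        · -- ascents, D smaller
          have hss : D.betw t ⊂ D'.betw t := by
            rw [ssubset_iff_of_subset]
            · refine ⟨D.a (t + 1), ?_, ?_⟩
              · unfold betw
                rw [mem_filter, ← hS, ← ha]
                exact ⟨hmem, Or.inl ⟨h1, h3⟩⟩
              · unfold betw
                rw [mem_filter]
                rintro ⟨_, h | h⟩ <;> omega
            · intro w hw
              unfold betw at hw ⊢
              rw [mem_filter] at hw ⊢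
              rw [← hS, ← ha]
              refine ⟨hw.1, Or.inl ?_⟩
              rcases hw.2 with h | h <;> omega
          have := card_lt_card hss
          omega
        · -- descents, D' smaller distance
          have h2 : ¬ D'.a t < D'.a (t + 1) := fun h => h1 (hdir.mpr h)
          have hss : D'.betw t ⊂ D.betw t := by
            rw [ssubset_iff_of_subset]
            · refine ⟨D'.a (t + 1), ?_, ?_⟩
              · unfold betw
                rw [mem_filter, hS]
                exact ⟨hmem', Or.inr ⟨h3, by omega⟩⟩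
              · unfold betw
                rw [mem_filter]
                rintro ⟨_, h | h⟩ <;> omega
            · intro w hw
              unfold betw at hw ⊢
              rw [mem_filter] at hw ⊢
              rw [hS]
              refine ⟨hw.1, Or.inr ?_⟩
              rcases hw.2 with h | h <;> omega
          have := card_lt_card hss
          omega
      · by_cases h1 : D.a t < D.a (t + 1)
        · have h2 := hdir.mp h1
          have hss : D'.betw t ⊂ D.betw t := by
            rw [ssubset_iff_of_subset]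
            · refine ⟨D'.a (t + 1), ?_, ?_⟩
              · unfold betw
                rw [mem_filter, hS]
                exact ⟨hmem', Or.inl ⟨by omega, h3⟩⟩
              · unfold betw
                rw [mem_filter]
                rintro ⟨_, h | h⟩ <;> omega
            · intro w hw
              unfold betw at hw ⊢
              rw [mem_filter] at hw ⊢
              rw [hS]
              refine ⟨hw.1, Or.inl ?_⟩
              rcases hw.2 with h | h <;> omega
          have := card_lt_card hss
          omega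
        · have h2 : ¬ D'.a t < D'.a (t + 1) := fun h => h1 (hdir.mpr h)
          have hss : D.betw t ⊂ D'.betw t := by
            rw [ssubset_iff_of_subset]
            · refine ⟨D.a (t + 1), ?_, ?_⟩
              · unfold betw
                rw [mem_filter, ← hS]
                exact ⟨hmem, Or.inr ⟨h3, by omega⟩⟩
              · unfold betw
                rw [mem_filter]
                rintro ⟨_, h | h⟩ <;> omega
            · intro w hw
              unfold betw at hw ⊢
              rw [mem_filter] at hw ⊢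
              rw [← hS]
              refine ⟨hw.1, Or.inr ?_⟩
              rcases hw.2 with h | h <;> omega
          have := card_lt_card hss
          omega
    refine ⟨hanext, ?_⟩
    have hXX : ∀ w, D.X t w ↔ D'.X t w := by
      intro w
      unfold X
      rw [ha, hanext]
    ext w
    by_cases hX : D.X t w
    · rw [D.succ_of_X hX, D'.succ_of_X ((hXX w).mp hX)]
      constructor
      · rintro ⟨h1, h2⟩
        exact D.birth_transfer D' hB hT ht ha w h1 h2
      · rintro ⟨h1, h2⟩
        exact D'.birth_transfer D hB.symm hT.symm ht ha.symm w h1 h2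
    · rw [D.succ_of_not_X hX, D'.succ_of_not_X (fun h => hX ((hXX w).mpr h)), hS]

/-! ### length of the code -/

/-- number of visible values above the head -/
noncomputable def ht (t : ℕ) : ℕ := ((D.Stk t).filter (fun w => D.a t < w)).card

theorem ht_le (t : ℕ) : D.ht t ≤ n := by
  unfold ht
  calc _ ≤ (range n).card := by
        apply card_le_card
        intro w hw
        exact mem_range.mpr (D.mem_Stk.mp (mem_filter.mp hw).1).1
    _ = n := card_range n

theorem ht_ascent {t : ℕ} (ht1 : t + 1 < n) (h : D.a t < D.a (t + 1)) :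
    D.ht (t + 1) + ((D.betw t).card + 1) = D.ht t := by
  have hmem := D.a_succ_mem_Stk ht1
  have h1 : (D.Stk t).filter (fun w => D.a t < w) =
      insert (D.a (t + 1)) ((D.betw t) ∪ (D.Stk (t + 1)).filter (fun w => D.a (t + 1) < w)) := by
    ext w
    rw [mem_filter, mem_insert, mem_union, mem_filter, betw, mem_filter]
    constructor
    · rintro ⟨h1, h2⟩
      rcases lt_trichotomy w (D.a (t + 1)) with h3 | h3 | h3
      · right; left; exact ⟨h1, Or.inl ⟨h2, h3⟩⟩
      · left; exact h3
      · right; right
        refine ⟨(D.succ_of_not_X ?_).mpr h1, h3⟩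
        rintro ⟨_, _, h5⟩
        omega
    · rintro (h1 | ⟨h1, h2⟩ | ⟨h1, h2⟩)
      · rw [h1]; exact ⟨hmem, h⟩
      · rcases h2 with h2 | h2
        · exact ⟨h1, h2.1⟩
        · omega
      · refine ⟨(D.succ_of_not_X ?_).mp h1, by omega⟩
        rintro ⟨_, _, h5⟩
        omega
  have hdisj : Disjoint (D.betw t) ((D.Stk (t + 1)).filter (fun w => D.a (t + 1) < w)) := by
    rw [disjoint_left]
    intro w hw hw'
    rw [betw, mem_filter] at hw
    rw [mem_filter] at hw'
    rcases hw.2 with h2 | h2 <;> omega
  have hnot : D.a (t + 1) ∉ (D.betw t) ∪ (D.Stk (t + 1)).filter (fun w => D.a (t + 1) < w) := by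
    rw [mem_union, betw, mem_filter, mem_filter]
    rintro (⟨_, h2 | h2⟩ | ⟨_, h2⟩) <;> omega
  unfold ht
  rw [h1, card_insert_of_notMem hnot, card_union_of_disjoint hdisj]
  omega

theorem ht_descent {t : ℕ} (ht1 : t + 1 < n) (h : ¬ D.a t < D.a (t + 1)) :
    D.ht (t + 1) = D.ht t + ((D.betw t).card + 1) := by
  have hne : D.a t ≠ D.a (t + 1) := by
    intro h
    have h1 := congrArg D.τ h
    rw [D.τ_a _ (by omega), D.τ_a _ ht1] at h1
    omega
  have hmem := D.a_mem_Stk (e := t) (by omega)
  have h1 : (D.Stk (t + 1)).filter (fun w => D.a (t + 1) < w) =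
      insert (D.a t) ((D.betw t) ∪ (D.Stk t).filter (fun w => D.a t < w)) := by
    ext w
    rw [D.Stk_succ_of_descent h, mem_filter, mem_insert, mem_union, mem_filter, betw, mem_filter]
    constructor
    · rintro ⟨h1, h2⟩
      rcases lt_trichotomy w (D.a t) with h3 | h3 | h3
      · right; left; exact ⟨h1, Or.inr ⟨h2, h3⟩⟩
      · left; exact h3
      · right; right; exact ⟨h1, h3⟩
    · rintro (h1 | ⟨h1, h2⟩ | ⟨h1, h2⟩)
      · rw [h1]; exact ⟨hmem, by omega⟩
      · rcases h2 with h2 | h2
        · omega
        · exact ⟨h1, h2.1⟩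
      · exact ⟨h1, by omega⟩
  have hdisj : Disjoint (D.betw t) ((D.Stk t).filter (fun w => D.a t < w)) := by
    rw [disjoint_left]
    intro w hw hw'
    rw [betw, mem_filter] at hw
    rw [mem_filter] at hw'
    rcases hw.2 with h2 | h2 <;> omega
  have hnot : D.a t ∉ (D.betw t) ∪ (D.Stk t).filter (fun w => D.a t < w) := by
    rw [mem_union, betw, mem_filter, mem_filter]
    rintro (⟨_, h2 | h2⟩ | ⟨_, h2⟩) <;> omega
  unfold ht
  rw [h1, card_insert_of_notMem hnot, card_union_of_disjoint hdisj]
  omega

theorem sum_identity : ∀ N, N < n →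
    ∑ t ∈ range N, ((D.betw t).card + 1) + D.ht 0 =
      D.ht N + 2 * ∑ t ∈ range N, (if D.a t < D.a (t + 1) then (D.betw t).card + 1 else 0) := by
  intro N
  induction N with
  | zero => intro _; simp
  | succ N ih =>
    intro hN
    have h1 := ih (by omega)
    rw [sum_range_succ, sum_range_succ]
    by_cases h : D.a N < D.a (N + 1)
    · have h2 := D.ht_ascent hN h
      rw [if_pos h]
      omega
    · have h2 := D.ht_descent hN h
      rw [if_neg h]
      omega

theorem sum_ascents (N : ℕ) (hN : N < n) :
    ∑ t ∈ range N, (if D.a t < D.a (t + 1) then (D.betw t).card else 0) ≤ n := by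
  rw [← sum_filter]
  rw [← card_biUnion]
  · calc _ ≤ (range n).card := by
          apply card_le_card
          intro w hw
          rw [mem_biUnion] at hw
          obtain ⟨t, _, hw⟩ := hw
          rw [betw, mem_filter, mem_Stk] at hw
          exact mem_range.mpr hw.1.1
      _ = n := card_range n
  · intro t ht t' ht' hne
    rw [mem_coe, mem_filter, mem_range] at ht ht'
    have key : ∀ t t' w, t < t' → t < N → D.a t < D.a (t + 1) → t' < N →
        D.a t' < D.a (t' + 1) → w ∈ D.betw t → w ∈ D.betw t' → False := by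
      intro t t' w htt htN hasc ht'N hasc' hw hw'
      rw [betw, mem_filter] at hw hw'
      have hX : D.X t w := by
        refine ⟨by omega, ?_⟩
        rcases hw.2 with h2 | h2 <;> omega
      have e1 := (D.mem_Stk.mp hw.1).2 t hX
      have e2 := (D.mem_Stk.mp hw'.1).2 t hX
      omega
    simp only [Function.onFun]
    rw [disjoint_left]
    intro w hw hw'
    rcases lt_or_gt_of_ne hne with h | h
    · exact key t t' w h ht.1 ht.2 ht'.1 ht'.2 hw hw'
    · exact key t' t w h ht'.1 ht'.2 ht.1 ht.2 hw' hw

theorem sum_ltr (N : ℕ) (hN : N < n) : ∑ t ∈ range N, (D.ltr t + 1) ≤ 10 * n := by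
  have h1 := D.sum_identity N hN
  have h2 := D.sum_ascents N hN
  have h3 := D.ht_le N
  have h4 : ∑ t ∈ range N, (if D.a t < D.a (t + 1) then (D.betw t).card + 1 else 0) ≤
      ∑ t ∈ range N, (if D.a t < D.a (t + 1) then (D.betw t).card else 0) + N := by
    calc _ ≤ ∑ t ∈ range N, ((if D.a t < D.a (t + 1) then (D.betw t).card else 0) + 1) := by
          apply sum_le_sum
          intro t _
          split_ifs <;> omega
      _ = _ := by rw [sum_add_distrib]; simp
  have h5 : ∑ t ∈ range N, (D.ltr t + 1) ≤ ∑ t ∈ range N, 2 * ((D.betw t).card + 1) := by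
    apply sum_le_sum
    intro t _
    unfold ltr
    split_ifs <;> omega
  rw [← mul_sum] at h5
  omega

/-- partial sums of the code letters -/
noncomputable def psum (t : ℕ) : ℕ := ∑ i ∈ range (t + 1), (D.ltr i + 1)

/-- the code as a set -/
noncomputable def Q : Finset ℕ := (range (n - 1)).image D.psum

theorem Q_subset : D.Q ⊆ range (10 * n + 1) := by
  intro x hx
  unfold Q at hx
  rw [mem_image] at hx
  obtain ⟨t, ht, rfl⟩ := hx
  rw [mem_range] at ht ⊢
  unfold psum
  have := D.sum_ltr (t + 1) (by omega)
  omega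

theorem ltr_eq_of_Q (D' : PD n) (hQ : D.Q = D'.Q) : ∀ t, t + 1 < n → D.ltr t = D'.ltr t := by
  have hmono : ∀ E : PD n, StrictMono (fun t : Fin (n - 1) => E.psum t) := by
    intro E s t hst
    have hst' : (s : ℕ) < t := hst
    simp only [psum]
    rw [← Finset.sum_range_add_sum_Ico _ (show (s : ℕ) + 1 ≤ (t : ℕ) + 1 by omega)]
    have : 0 < ∑ i ∈ Ico ((s : ℕ) + 1) ((t : ℕ) + 1), (E.ltr i + 1) := by
      apply sum_pos
      · intro i _; omega
      · exact ⟨(s : ℕ) + 1, mem_Ico.mpr ⟨le_refl _, by omega⟩⟩
    omega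
  have hrange : ∀ E : PD n, Set.range (fun t : Fin (n - 1) => E.psum t) = ((E.Q : Finset ℕ) : Set ℕ) := by
    intro E
    ext x
    unfold Q
    rw [coe_image, Set.mem_range, Set.mem_image]
    constructor
    · rintro ⟨t, rfl⟩
      exact ⟨t, mem_coe.mpr (mem_range.mpr t.2), rfl⟩
    · rintro ⟨t, ht, rfl⟩
      exact ⟨⟨t, mem_range.mp (mem_coe.mp ht)⟩, rfl⟩
  have heq : (fun t : Fin (n - 1) => D.psum t) = (fun t : Fin (n - 1) => D'.psum t) := by
    rw [← StrictMono.range_inj (hmono D) (hmono D'), hrange, hrange, hQ]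
  have hps : ∀ t, t + 1 < n → D.psum t = D'.psum t := by
    intro t ht
    exact congrFun heq ⟨t, by omega⟩
  intro t ht
  rcases Nat.eq_zero_or_pos t with h0 | h0
  · subst h0
    have := hps 0 ht
    simpa [psum] using this
  · obtain ⟨s, rfl⟩ : ∃ s, t = s + 1 := ⟨t - 1, by omega⟩
    have h1 := hps s (by omega)
    have h2 := hps (s + 1) ht
    unfold psum at h1 h2
    rw [sum_range_succ, h1, sum_range_succ _ (s + 1)] at h2
    omega

end PD

end MP_48c8ea_co
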