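import Mathlib
import Pool.Agent.Lib.MP_48c8ea_co.Array

/-!
# The Marcus–Tardos recursion for sets of pairs without large arrays
-/

namespace MP_48c8ea_co

open Finset

/-- contraction of a set of pairs: both coordinates are divided by `m` -/
def con (m : ℕ) (B : Finset (ℕ × ℕ)) : Finset (ℕ × ℕ) :=
  B.image (fun x => (x.1 / m, x.2 / m))

theorem mem_con {m : ℕ} {B : Finset (ℕ × ℕ)} {x y : ℕ} :
    (x, y) ∈ con m B ↔ ∃ v u, (v, u) ∈ B ∧ v / m = x ∧ u / m = y := by
  unfold con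
  rw [mem_image]
  constructor
  · rintro ⟨⟨v, u⟩, h1, h2⟩
    rw [Prod.mk.injEq] at h2
    exact ⟨v, u, h1, h2.1, h2.2⟩
  · rintro ⟨v, u, h1, h2, h3⟩
    exact ⟨(v, u), h1, by rw [Prod.mk.injEq]; exact ⟨h2, h3⟩⟩

theorem con_con (m K : ℕ) (B : Finset (ℕ × ℕ)) : con K (con m B) = con (m * K) B := by
  ext ⟨x, y⟩
  rw [mem_con, mem_con]
  constructor
  · rintro ⟨v, u, h, h1, h2⟩
    rw [mem_con] at h
    obtain ⟨v', u', h', h1', h2'⟩ := h
    refine ⟨v', u', h', ?_, ?_⟩
    · rw [← Nat.div_div_eq_div_mul, h1', h1]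
    · rw [← Nat.div_div_eq_div_mul, h2', h2]
  · rintro ⟨v', u', h', h1', h2'⟩
    refine ⟨v' / m, u' / m, mem_con.mpr ⟨v', u', h', rfl, rfl⟩, ?_, ?_⟩
    · rw [Nat.div_div_eq_div_mul, h1']
    · rw [Nat.div_div_eq_div_mul, h2']

section step

variable (R K n m : ℕ) (B : Finset (ℕ × ℕ))

/-- the fiber of a contracted pair -/
def fib (P : ℕ × ℕ) : Finset (ℕ × ℕ) :=
  (con m B).filter (fun x => (x.1 / K, x.2 / K) = P)

/-- the row residues met by a fiber -/
def rowsOf (P : ℕ × ℕ) : Finset ℕ := (fib K m B P).image (fun x => x.1 % K)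

/-- the column residues met by a fiber -/
def colsOf (P : ℕ × ℕ) : Finset ℕ := (fib K m B P).image (fun x => x.2 % K)

theorem rowsOf_subset (hK : 0 < K) (P : ℕ × ℕ) : rowsOf K m B P ⊆ range K := by
  intro x hx
  unfold rowsOf at hx
  rw [mem_image] at hx
  obtain ⟨y, _, rfl⟩ := hx
  exact mem_range.mpr (Nat.mod_lt _ hK)

theorem colsOf_subset (hK : 0 < K) (P : ℕ × ℕ) : colsOf K m B P ⊆ range K := by
  intro x hx
  unfold colsOf at hx
  rw [mem_image] at hx
  obtain ⟨y, _, rfl⟩ := hx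
  exact mem_range.mpr (Nat.mod_lt _ hK)

theorem fib_card_le (P : ℕ × ℕ) :
    (fib K m B P).card ≤ (rowsOf K m B P).card * (colsOf K m B P).card := by
  rw [← card_product]
  apply card_le_card_of_injOn (fun x => (x.1 % K, x.2 % K))
  · intro x hx
    rw [coe_product, Set.mem_prod]
    refine ⟨?_, ?_⟩
    · exact mem_coe.mpr (mem_image_of_mem (f := fun x : ℕ × ℕ => x.1 % K) hx)
    · exact mem_coe.mpr (mem_image_of_mem (f := fun x : ℕ × ℕ => x.2 % K) hx)
  · intro x hx y hy hxy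
    have hx' := (mem_filter.mp (mem_coe.mp hx)).2
    have hy' := (mem_filter.mp (mem_coe.mp hy)).2
    rw [← hy', Prod.mk.injEq] at hx'
    simp only [Prod.mk.injEq] at hxy
    apply Prod.ext
    · rw [← Nat.div_add_mod x.1 K, ← Nat.div_add_mod y.1 K, hx'.1, hxy.1]
    · rw [← Nat.div_add_mod x.2 K, ← Nat.div_add_mod y.2 K, hx'.2, hxy.2]

theorem col_spec {P : ℕ × ℕ} {y : ℕ} (hy : y ∈ colsOf K m B P) :
    ∃ v u, (v, u) ∈ B ∧ v / (m * K) = P.1 ∧ u / m = K * P.2 + y := by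
  unfold colsOf at hy
  rw [mem_image] at hy
  obtain ⟨⟨x, z⟩, hx, rfl⟩ := hy
  unfold fib at hx
  rw [mem_filter, mem_con] at hx
  obtain ⟨⟨v, u, hB, h1, h2⟩, h3⟩ := hx
  rw [← h3]
  refine ⟨v, u, hB, ?_, ?_⟩
  · rw [← Nat.div_div_eq_div_mul, h1]
  · rw [h2]
    exact (Nat.div_add_mod z K).symm

theorem row_spec {P : ℕ × ℕ} {x : ℕ} (hx : x ∈ rowsOf K m B P) :
    ∃ v u, (v, u) ∈ B ∧ v / m = K * P.1 + x ∧ u / (m * K) = P.2 := by
  unfold rowsOf at hx
  rw [mem_image] at hx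
  obtain ⟨⟨x, z⟩, hx, rfl⟩ := hx
  unfold fib at hx
  rw [mem_filter, mem_con] at hx
  obtain ⟨⟨v, u, hB, h1, h2⟩, h3⟩ := hx
  rw [← h3]
  refine ⟨v, u, hB, ?_, ?_⟩
  · rw [h1]
    exact (Nat.div_add_mod x K).symm
  · rw [← Nat.div_div_eq_div_mul, h2]

/-- in each column at most `2^K * R` wide off-diagonal blocks -/
theorem wide_card (hK : 0 < K) (hlt : ∀ v u, (v, u) ∈ B → v < u) (hno : NoArray B R) (Y : ℕ) :
    (((con (m * K) B).filter (fun P => P.1 ≠ P.2 ∧ R ≤ (colsOf K m B P).card)).filter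
      (fun P => P.2 = Y)).card ≤ 2 ^ K * R := by
  by_contra hcon
  push Not at hcon
  set W := ((con (m * K) B).filter (fun P => P.1 ≠ P.2 ∧ R ≤ (colsOf K m B P).card)).filter
      (fun P => P.2 = Y) with hW
  have hmap : ∀ P ∈ W, colsOf K m B P ∈ (range K).powerset := fun P _ =>
    mem_powerset.mpr (colsOf_subset K m B hK P)
  obtain ⟨T, hT, hTc⟩ := exists_lt_card_fiber_of_mul_lt_card_of_maps_to (n := R) hmap (by
    rw [card_powerset, card_range]; exact hcon)
  set S := W.filter (fun P => colsOf K m B P = T) with hS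
  have hSspec : ∀ P ∈ S, P ∈ con (m * K) B ∧ P.1 ≠ P.2 ∧ R ≤ T.card ∧ P.2 = Y ∧
      colsOf K m B P = T := by
    intro P hP
    rw [hS, mem_filter, hW, mem_filter, mem_filter] at hP
    obtain ⟨⟨⟨h1, h2, h3⟩, h4⟩, h5⟩ := hP
    rw [h5] at h3
    exact ⟨h1, h2, h3, h4, h5⟩
  have hSne : S.Nonempty := by rw [← card_pos]; omega
  obtain ⟨P0, hP0⟩ := hSne
  have hTR : R ≤ T.card := (hSspec P0 hP0).2.2.1
  have hSimg : R ≤ (S.image (fun P => P.1)).card := by
    rw [card_image_of_injOn]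
    · exact hTc.le
    · intro P hP Q hQ hPQ
      have h1 := (hSspec P (mem_coe.mp hP)).2.2.2.1
      have h2 := (hSspec Q (mem_coe.mp hQ)).2.2.2.1
      exact Prod.ext hPQ (h1.trans h2.symm)
  let ex := (S.image (fun P => P.1)).orderEmbOfCardLe hSimg
  let et := T.orderEmbOfCardLe hTR
  have hxs : ∀ i : Fin R, ((ex i : ℕ), Y) ∈ S := by
    intro i
    have h1 : ex i ∈ S.image (fun P => P.1) := orderEmbOfCardLe_mem _ hSimg i
    rw [mem_image] at h1
    obtain ⟨P, hP, h2⟩ := h1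
    have h3 := (hSspec P hP).2.2.2.1
    rw [← h2, ← h3]
    exact hP
  have hex : ∀ i l : Fin R, ∃ vu : ℕ × ℕ, (vu.1, vu.2) ∈ B ∧ vu.1 / (m * K) = ex i ∧
      vu.2 / m = K * Y + et l := by
    intro i l
    have h1 := hSspec _ (hxs i)
    have h2 : (et l : ℕ) ∈ colsOf K m B ((ex i : ℕ), Y) := by
      rw [h1.2.2.2.2]
      exact orderEmbOfCardLe_mem _ hTR l
    obtain ⟨v, u, h3, h4, h5⟩ := col_spec K m B h2
    exact ⟨(v, u), h3, h4, h5⟩
  choose vu hvu1 hvu2 hvu3 using hex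
  apply hno
  refine ⟨fun i l => if h : i < R ∧ l < R then (vu ⟨i, h.1⟩ ⟨l, h.2⟩).1 else 0,
    fun i l => if h : i < R ∧ l < R then (vu ⟨i, h.1⟩ ⟨l, h.2⟩).2 else 0, ?_, ?_, ?_, ?_⟩
  · intro i hi l hl
    simp only [hi, hl, and_self, dite_true]
    exact hvu1 _ _
  · intro i i' h1 h2 l hl l' hl'
    have hi : i < R := h1.trans h2
    simp only [hi, hl, h2, hl', and_self, dite_true]
    apply Nat.lt_of_div_lt_div (c := m * K)
    rw [hvu2, hvu2]
    exact ex.lt_iff_lt.mpr h1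
  · intro l l' h1 h2 i hi i' hi'
    have hl : l < R := h1.trans h2
    simp only [hi, hl, h2, hi', and_self, dite_true]
    apply Nat.lt_of_div_lt_div (c := m)
    rw [hvu3, hvu3]
    have : (et ⟨l, hl⟩ : ℕ) < et ⟨l', h2⟩ := et.lt_iff_lt.mpr h1
    omega
  · intro i hi l hl i' hi' l' hl'
    simp only [hi, hl, hi', hl', and_self, dite_true]
    apply Nat.lt_of_div_lt_div (c := m * K)
    rw [hvu2]
    have h1 := hSspec _ (hxs ⟨i, hi⟩)
    have h2 : (vu ⟨i', hi'⟩ ⟨l', hl'⟩).2 / (m * K) = Y := by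
      have h3 : (et ⟨l', hl'⟩ : ℕ) < K := by
        have h4 : (et ⟨l', hl'⟩ : ℕ) ∈ T := orderEmbOfCardLe_mem _ hTR _
        exact mem_range.mp (mem_powerset.mp hT h4)
      rw [← Nat.div_div_eq_div_mul, hvu3, Nat.mul_add_div hK, Nat.div_eq_of_lt h3, add_zero]
    rw [h2]
    have h3 : (ex ⟨i, hi⟩ : ℕ) ≤ Y := by
      have h4 := hvu2 ⟨i, hi⟩ ⟨l, hl⟩
      have h5 : (vu ⟨i, hi⟩ ⟨l, hl⟩).2 / (m * K) = Y := by
        have h3 : (et ⟨l, hl⟩ : ℕ) < K := by
          have h4 : (et ⟨l, hl⟩ : ℕ) ∈ T := orderEmbOfCardLe_mem _ hTR _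
          exact mem_range.mp (mem_powerset.mp hT h4)
        rw [← Nat.div_div_eq_div_mul, hvu3, Nat.mul_add_div hK, Nat.div_eq_of_lt h3, add_zero]
      rw [← h4, ← h5]
      exact Nat.div_le_div_right (hlt _ _ (hvu1 _ _)).le
    exact lt_of_le_of_ne h3 h1.2.1

/-- in each row at most `2^K * R` tall off-diagonal blocks -/
theorem tall_card (hK : 0 < K) (hlt : ∀ v u, (v, u) ∈ B → v < u) (hno : NoArray B R) (X : ℕ) :
    (((con (m * K) B).filter (fun P => P.1 ≠ P.2 ∧ R ≤ (rowsOf K m B P).card)).filter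
      (fun P => P.1 = X)).card ≤ 2 ^ K * R := by
  by_contra hcon
  push Not at hcon
  set W := ((con (m * K) B).filter (fun P => P.1 ≠ P.2 ∧ R ≤ (rowsOf K m B P).card)).filter
      (fun P => P.1 = X) with hW
  have hmap : ∀ P ∈ W, rowsOf K m B P ∈ (range K).powerset := fun P _ =>
    mem_powerset.mpr (rowsOf_subset K m B hK P)
  obtain ⟨T, hT, hTc⟩ := exists_lt_card_fiber_of_mul_lt_card_of_maps_to (n := R) hmap (by
    rw [card_powerset, card_range]; exact hcon)
  set S := W.filter (fun P => rowsOf K m B P = T) with hS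
  have hSspec : ∀ P ∈ S, P ∈ con (m * K) B ∧ P.1 ≠ P.2 ∧ R ≤ T.card ∧ P.1 = X ∧
      rowsOf K m B P = T := by
    intro P hP
    rw [hS, mem_filter, hW, mem_filter, mem_filter] at hP
    obtain ⟨⟨⟨h1, h2, h3⟩, h4⟩, h5⟩ := hP
    rw [h5] at h3
    exact ⟨h1, h2, h3, h4, h5⟩
  have hSne : S.Nonempty := by rw [← card_pos]; omega
  obtain ⟨P0, hP0⟩ := hSne
  have hTR : R ≤ T.card := (hSspec P0 hP0).2.2.1
  have hSimg : R ≤ (S.image (fun P => P.2)).card := by
    rw [card_image_of_injOn]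
    · exact hTc.le
    · intro P hP Q hQ hPQ
      have h1 := (hSspec P (mem_coe.mp hP)).2.2.2.1
      have h2 := (hSspec Q (mem_coe.mp hQ)).2.2.2.1
      exact Prod.ext (h1.trans h2.symm) hPQ
  let ex := (S.image (fun P => P.2)).orderEmbOfCardLe hSimg
  let et := T.orderEmbOfCardLe hTR
  have hxs : ∀ i : Fin R, (X, (ex i : ℕ)) ∈ S := by
    intro i
    have h1 : ex i ∈ S.image (fun P => P.2) := orderEmbOfCardLe_mem _ hSimg i
    rw [mem_image] at h1
    obtain ⟨P, hP, h2⟩ := h1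
    have h3 := (hSspec P hP).2.2.2.1
    rw [← h2, ← h3]
    exact hP
  have hex : ∀ i l : Fin R, ∃ vu : ℕ × ℕ, (vu.1, vu.2) ∈ B ∧ vu.1 / m = K * X + et i ∧
      vu.2 / (m * K) = ex l := by
    intro i l
    have h1 := hSspec _ (hxs l)
    have h2 : (et i : ℕ) ∈ rowsOf K m B (X, (ex l : ℕ)) := by
      rw [h1.2.2.2.2]
      exact orderEmbOfCardLe_mem _ hTR i
    obtain ⟨v, u, h3, h4, h5⟩ := row_spec K m B h2
    exact ⟨(v, u), h3, h4, h5⟩
  choose vu hvu1 hvu2 hvu3 using hex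
  have hdiv : ∀ i l : Fin R, (vu i l).1 / (m * K) = X := by
    intro i l
    have h3 : (et i : ℕ) < K := by
      have h4 : (et i : ℕ) ∈ T := orderEmbOfCardLe_mem _ hTR _
      exact mem_range.mp (mem_powerset.mp hT h4)
    rw [← Nat.div_div_eq_div_mul, hvu2, Nat.mul_add_div hK, Nat.div_eq_of_lt h3, add_zero]
  apply hno
  refine ⟨fun i l => if h : i < R ∧ l < R then (vu ⟨i, h.1⟩ ⟨l, h.2⟩).1 else 0,
    fun i l => if h : i < R ∧ l < R then (vu ⟨i, h.1⟩ ⟨l, h.2⟩).2 else 0, ?_, ?_, ?_, ?_⟩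
  · intro i hi l hl
    simp only [hi, hl, and_self, dite_true]
    exact hvu1 _ _
  · intro i i' h1 h2 l hl l' hl'
    have hi : i < R := h1.trans h2
    simp only [hi, hl, h2, hl', and_self, dite_true]
    apply Nat.lt_of_div_lt_div (c := m)
    rw [hvu2, hvu2]
    have : (et ⟨i, hi⟩ : ℕ) < et ⟨i', h2⟩ := et.lt_iff_lt.mpr h1
    omega
  · intro l l' h1 h2 i hi i' hi'
    have hl : l < R := h1.trans h2
    simp only [hi, hl, h2, hi', and_self, dite_true]
    apply Nat.lt_of_div_lt_div (c := m * K)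
    rw [hvu3, hvu3]
    exact ex.lt_iff_lt.mpr h1
  · intro i hi l hl i' hi' l' hl'
    simp only [hi, hl, hi', hl', and_self, dite_true]
    apply Nat.lt_of_div_lt_div (c := m * K)
    rw [hvu3, hdiv]
    have h1 := hSspec _ (hxs ⟨l', hl'⟩)
    have h3 : X ≤ (ex ⟨l', hl'⟩ : ℕ) := by
      rw [← hvu3 ⟨i', hi'⟩ ⟨l', hl'⟩, ← hdiv ⟨i', hi'⟩ ⟨l', hl'⟩]
      exact Nat.div_le_div_right (hlt _ _ (hvu1 _ _)).le
    exact lt_of_le_of_ne h3 h1.2.1

/-- one step of the recursion -/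
theorem step (hK : 0 < K) (hlt : ∀ v u, (v, u) ∈ B → v < u ∧ u < n) (hno : NoArray B R) :
    (con m B).card ≤ R ^ 2 * (con (m * K) B).card +
      K ^ 2 * ((n / (m * K) + 1) * (1 + 2 * (2 ^ K * R))) := by
  set E' := con (m * K) B with hE'
  set N' := n / (m * K) with hN'
  have hlt1 : ∀ v u, (v, u) ∈ B → v < u := fun v u h => (hlt v u h).1
  have hbd : ∀ P ∈ E', P.1 < N' + 1 ∧ P.2 < N' + 1 := by
    rintro ⟨x, y⟩ hP
    rw [hE', mem_con] at hP
    obtain ⟨v, u, h1, h2, h3⟩ := hP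
    obtain ⟨h4, h5⟩ := hlt v u h1
    simp only
    rw [← h2, ← h3, Nat.lt_succ_iff, Nat.lt_succ_iff]
    exact ⟨Nat.div_le_div_right (by omega), Nat.div_le_div_right (by omega)⟩
  have h0 : (con m B).card = ∑ P ∈ E', (fib K m B P).card := by
    apply card_eq_sum_card_fiberwise
    rintro ⟨x, y⟩ hx
    rw [hE', ← con_con]
    exact mem_coe.mpr (mem_con.mpr ⟨x, y, mem_coe.mp hx, rfl, rfl⟩)
  have hpt : ∀ P ∈ E', (fib K m B P).card ≤ R ^ 2 + ((if P.1 = P.2 then K ^ 2 else 0) +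
      (if P.1 ≠ P.2 ∧ R ≤ (colsOf K m B P).card then K ^ 2 else 0) +
      (if P.1 ≠ P.2 ∧ R ≤ (rowsOf K m B P).card then K ^ 2 else 0)) := by
    intro P _
    have h1 := fib_card_le K m B P
    have h2 : (rowsOf K m B P).card ≤ K := by
      have := card_le_card (rowsOf_subset K m B hK P)
      rwa [card_range] at this
    have h3 : (colsOf K m B P).card ≤ K := by
      have := card_le_card (colsOf_subset K m B hK P)
      rwa [card_range] at this
    have h4 : (fib K m B P).card ≤ K ^ 2 := by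
      refine h1.trans ?_
      rw [pow_two]
      exact Nat.mul_le_mul h2 h3
    by_cases hd : P.1 = P.2
    · rw [if_pos hd]; omega
    · by_cases hc : R ≤ (colsOf K m B P).card
      · rw [if_pos (show P.1 ≠ P.2 ∧ R ≤ (colsOf K m B P).card from ⟨hd, hc⟩)]; omega
      · by_cases hr : R ≤ (rowsOf K m B P).card
        · rw [if_pos (show P.1 ≠ P.2 ∧ R ≤ (rowsOf K m B P).card from ⟨hd, hr⟩)]; omega
        · have : (fib K m B P).card ≤ R ^ 2 := by
            refine h1.trans ?_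
            rw [pow_two]
            exact Nat.mul_le_mul (by omega) (by omega)
          omega
  have hsum := sum_le_sum hpt
  rw [← h0, sum_add_distrib, sum_add_distrib, sum_add_distrib, sum_const, smul_eq_mul,
    ← sum_filter, ← sum_filter, ← sum_filter, sum_const, sum_const, sum_const,
    smul_eq_mul, smul_eq_mul, smul_eq_mul] at hsum
  have hdiag : (E'.filter (fun P => P.1 = P.2)).card ≤ N' + 1 := by
    rw [← card_range (N' + 1)]
    apply card_le_card_of_injOn (fun P => P.1)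
    · intro P hP
      exact mem_coe.mpr (mem_range.mpr (hbd P (mem_filter.mp (mem_coe.mp hP)).1).1)
    · intro P hP Q hQ hPQ
      have h1 := (mem_filter.mp (mem_coe.mp hP)).2
      have h2 := (mem_filter.mp (mem_coe.mp hQ)).2
      simp only at hPQ
      exact Prod.ext hPQ (by rw [← h1, ← h2, hPQ])
  have hwide : (E'.filter (fun P => P.1 ≠ P.2 ∧ R ≤ (colsOf K m B P).card)).card ≤
      (N' + 1) * (2 ^ K * R) := by
    have h1 := card_eq_sum_card_fiberwise
      (s := E'.filter (fun P => P.1 ≠ P.2 ∧ R ≤ (colsOf K m B P).card))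
      (t := range (N' + 1)) (f := fun P => P.2) (by
        intro P hP
        exact mem_coe.mpr (mem_range.mpr (hbd P (mem_filter.mp (mem_coe.mp hP)).1).2))
    rw [h1]
    calc _ ≤ ∑ Y ∈ range (N' + 1), 2 ^ K * R :=
          sum_le_sum (fun Y _ => wide_card R K m B hK hlt1 hno Y)
      _ = _ := by rw [sum_const, card_range, smul_eq_mul]
  have htall : (E'.filter (fun P => P.1 ≠ P.2 ∧ R ≤ (rowsOf K m B P).card)).card ≤
      (N' + 1) * (2 ^ K * R) := by
    have h1 := card_eq_sum_card_fiberwise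
      (s := E'.filter (fun P => P.1 ≠ P.2 ∧ R ≤ (rowsOf K m B P).card))
      (t := range (N' + 1)) (f := fun P => P.1) (by
        intro P hP
        exact mem_coe.mpr (mem_range.mpr (hbd P (mem_filter.mp (mem_coe.mp hP)).1).1))
    rw [h1]
    calc _ ≤ ∑ Y ∈ range (N' + 1), 2 ^ K * R :=
          sum_le_sum (fun Y _ => tall_card R K m B hK hlt1 hno Y)
      _ = _ := by rw [sum_const, card_range, smul_eq_mul]
  calc (con m B).card ≤ _ := hsum
    _ ≤ E'.card * R ^ 2 + ((N' + 1) * K ^ 2 + ((N' + 1) * (2 ^ K * R)) * K ^ 2 +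
        ((N' + 1) * (2 ^ K * R)) * K ^ 2) := by
        gcongr
    _ = _ := by ring

end step

/-- the contracted sets are of linear size -/
theorem con_card_le (R : ℕ) : ∃ C : ℕ, ∀ (n : ℕ) (B : Finset (ℕ × ℕ)),
    (∀ v u, (v, u) ∈ B → v < u ∧ u < n) → NoArray B R →
    ∀ m : ℕ, 0 < m → (con m B).card ≤ C * (n / m + 1) := by
  set K := 4 * R ^ 2 + 1 with hKdef
  have hK : 0 < K := by omega
  set C := 4 * K * (1 + 2 * (2 ^ K * R)) with hC
  have hCK : K ≤ C := by
    rw [hC]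
    have : K * 1 ≤ 4 * K * (1 + 2 * (2 ^ K * R)) := by
      apply Nat.mul_le_mul <;> omega
    omega
  refine ⟨C, ?_⟩
  intro n B hlt hno
  suffices H : ∀ N m : ℕ, 0 < m → n / m = N → (con m B).card ≤ C * (N + 1) by
    intro m hm
    exact H _ m hm rfl
  intro N
  induction N using Nat.strong_induction_on with
  | _ N ih =>
    intro m hm hN
    by_cases hNK : N < K
    · -- small case
      have hsub : con m B ⊆ (range (N + 1)) ×ˢ (range (N + 1)) := by
        rintro ⟨x, y⟩ hx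
        rw [mem_con] at hx
        obtain ⟨v, u, h1, h2, h3⟩ := hx
        obtain ⟨h4, h5⟩ := hlt v u h1
        rw [mem_product, mem_range, mem_range, ← h2, ← h3, Nat.lt_succ_iff, Nat.lt_succ_iff, ← hN]
        exact ⟨Nat.div_le_div_right (by omega), Nat.div_le_div_right (by omega)⟩
      have h1 := card_le_card hsub
      rw [card_product, card_range] at h1
      refine h1.trans ?_
      apply Nat.mul_le_mul_right
      omega
    · push Not at hNK
      have hstep := step R K n m B hK hlt hno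
      have hN' : n / (m * K) = N / K := by rw [← Nat.div_div_eq_div_mul, hN]
      have hlt' : N / K < N := by
        apply Nat.div_lt_self (by omega)
        have : R ≠ 0 := by
          rintro rfl
          exact hno ⟨fun _ _ => 0, fun _ _ => 0, by simp, by simp, by simp, by simp⟩
        have : 0 < R ^ 2 := by positivity
        omega
      have h1 := ih (N / K) hlt' (m * K) (by positivity) hN'
      rw [hN'] at hstep
      set q := N / K with hq
      have hq1 : 1 ≤ q := (Nat.one_le_div_iff hK).mpr hNK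
      have hqN : K * q ≤ N := Nat.mul_div_le N K
      set D := 1 + 2 * (2 ^ K * R) with hD
      have h2 : (con m B).card ≤ R ^ 2 * (C * (q + 1)) + K ^ 2 * ((q + 1) * D) := by
        refine hstep.trans ?_
        gcongr
      -- compare
      have h3 : R ^ 2 * (C * (q + 1)) + K ^ 2 * ((q + 1) * D) ≤ C * (K * q) := by
        have e1 : q + 1 ≤ 2 * q := by omega
        have e2 : R ^ 2 * (C * (q + 1)) ≤ R ^ 2 * (C * (2 * q)) := by gcongr
        have e3 : K ^ 2 * ((q + 1) * D) ≤ K ^ 2 * ((2 * q) * D) := by gcongr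
        have e4 : 2 * (K ^ 2 * ((2 * q) * D)) = C * (K * q) := by rw [hC]; ring
        have e5 : 2 * (R ^ 2 * (C * (2 * q))) ≤ C * (K * q) := by
          calc 2 * (R ^ 2 * (C * (2 * q))) = C * ((4 * R ^ 2) * q) := by ring
            _ ≤ C * (K * q) := by
                apply Nat.mul_le_mul_left
                apply Nat.mul_le_mul_right
                omega
        omega
      calc (con m B).card ≤ _ := h2
        _ ≤ C * (K * q) := h3
        _ ≤ C * (N + 1) := by
            apply Nat.mul_le_mul_left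
            omega

end MP_48c8ea_co
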