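import Mathlib
import Pool.Agent.Lib.MP_48c8ea_co.MT

/-!
# Counting sets of pairs all of whose contractions are of linear size
-/

namespace MP_48c8ea_co

open Finset

open Classical in
/-- sets of pairs in `[0, M]²` all of whose dyadic contractions are of linear size -/
noncomputable def Fam (C M : ℕ) : Finset (Finset (ℕ × ℕ)) :=
  ((range (M + 1) ×ˢ range (M + 1)).powerset).filter
    (fun E => ∀ i, (con (2 ^ i) E).card ≤ C * (M / 2 ^ i + 1))

theorem mem_Fam {C M : ℕ} {E : Finset (ℕ × ℕ)} : E ∈ Fam C M ↔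
    E ⊆ range (M + 1) ×ˢ range (M + 1) ∧ ∀ i, (con (2 ^ i) E).card ≤ C * (M / 2 ^ i + 1) := by
  simp only [Fam, mem_filter, mem_powerset]

theorem con_one (E : Finset (ℕ × ℕ)) : con 1 E = E := by
  unfold con
  simp

theorem con_mem_Fam {C M : ℕ} {E : Finset (ℕ × ℕ)} (h : E ∈ Fam C M) :
    con 2 E ∈ Fam C (M / 2) := by
  rw [mem_Fam] at h ⊢
  obtain ⟨h1, h2⟩ := h
  constructor
  · rintro ⟨x, y⟩ hx
    rw [mem_con] at hx
    obtain ⟨v, u, hv, rfl, rfl⟩ := hx
    have := h1 hv
    rw [mem_product, mem_range, mem_range, Nat.lt_succ_iff, Nat.lt_succ_iff] at this ⊢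
    exact ⟨Nat.div_le_div_right this.1, Nat.div_le_div_right this.2⟩
  · intro i
    have := h2 (i + 1)
    rw [con_con]
    rw [pow_succ, mul_comm (2 ^ i) 2] at this
    rw [Nat.div_div_eq_div_mul]
    exact this

/-- the preimage of a set of pairs under the contraction by two -/
def lift2 (E : Finset (ℕ × ℕ)) : Finset (ℕ × ℕ) :=
  (E ×ˢ (range 2 ×ˢ range 2)).image (fun x => (2 * x.1.1 + x.2.1, 2 * x.1.2 + x.2.2))

theorem lift2_card (E : Finset (ℕ × ℕ)) : (lift2 E).card ≤ 4 * E.card := by
  unfold lift2
  refine card_image_le.trans ?_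
  rw [card_product, card_product, card_range]
  omega

theorem subset_lift2 (E : Finset (ℕ × ℕ)) : E ⊆ lift2 (con 2 E) := by
  rintro ⟨x, y⟩ hx
  unfold lift2
  rw [mem_image]
  refine ⟨((x / 2, y / 2), (x % 2, y % 2)), ?_, ?_⟩
  · rw [mem_product, mem_product, mem_range, mem_range]
    refine ⟨mem_con.mpr ⟨x, y, hx, rfl, rfl⟩, ?_, ?_⟩
    · exact Nat.mod_lt _ (by norm_num)
    · exact Nat.mod_lt _ (by norm_num)
  · simp only [Prod.mk.injEq]
    constructor <;> omega

theorem Fam_step (C M : ℕ) : (Fam C M).card ≤ (Fam C (M / 2)).card * 16 ^ (C * (M / 2 + 1)) := by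
  classical
  have h1 := card_eq_sum_card_fiberwise (s := Fam C M) (t := Fam C (M / 2)) (f := con 2)
    (fun E hE => mem_coe.mpr (con_mem_Fam (mem_coe.mp hE)))
  rw [h1]
  calc _ ≤ ∑ E' ∈ Fam C (M / 2), 16 ^ (C * (M / 2 + 1)) := by
        apply sum_le_sum
        intro E' hE'
        have h2 : (Fam C M).filter (fun E => con 2 E = E') ⊆ (lift2 E').powerset := by
          intro E hE
          rw [mem_filter] at hE
          rw [mem_powerset, ← hE.2]
          exact subset_lift2 E
        have h3 := card_le_card h2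
        rw [card_powerset] at h3
        refine h3.trans ?_
        have h4 : E'.card ≤ C * (M / 2 + 1) := by
          have := (mem_Fam.mp hE').2 0
          rw [pow_zero, con_one, Nat.div_one] at this
          exact this
        calc 2 ^ (lift2 E').card ≤ 2 ^ (4 * E'.card) :=
              Nat.pow_le_pow_right (by norm_num) (lift2_card E')
          _ = 16 ^ E'.card := by rw [pow_mul]; norm_num
          _ ≤ 16 ^ (C * (M / 2 + 1)) := Nat.pow_le_pow_right (by norm_num) h4
    _ = _ := by rw [sum_const, smul_eq_mul]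

theorem Fam_card (C M : ℕ) : (Fam C M).card ≤ (2 * 16 ^ (2 * C)) ^ (M + 1) := by
  induction M using Nat.strong_induction_on with
  | _ M ih =>
    rcases Nat.eq_zero_or_pos M with h0 | h0
    · subst h0
      have h1 : Fam C 0 ⊆ (range 1 ×ˢ range 1).powerset := by
        intro E hE
        rw [mem_powerset]
        exact (mem_Fam.mp hE).1
      have h2 := card_le_card h1
      rw [card_powerset, card_product, card_range] at h2
      refine h2.trans ?_
      have : 1 ≤ 16 ^ (2 * C) := Nat.one_le_pow _ _ (by norm_num)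
      simp only [zero_add, pow_one]
      omega
    · have h1 := ih (M / 2) (Nat.div_lt_self h0 (by norm_num))
      set D := 2 * 16 ^ (2 * C) with hD
      have h2 : 16 ^ (C * (M / 2 + 1)) ≤ D ^ (M - M / 2) := by
        calc 16 ^ (C * (M / 2 + 1)) ≤ 16 ^ (2 * C * (M - M / 2)) := by
              apply Nat.pow_le_pow_right (by norm_num)
              have : M / 2 + 1 ≤ 2 * (M - M / 2) := by omega
              calc C * (M / 2 + 1) ≤ C * (2 * (M - M / 2)) := Nat.mul_le_mul_left _ this
                _ = _ := by ring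
          _ = (16 ^ (2 * C)) ^ (M - M / 2) := by rw [pow_mul]
          _ ≤ D ^ (M - M / 2) := by
              apply Nat.pow_le_pow_left
              omega
      calc (Fam C M).card ≤ _ := Fam_step C M
        _ ≤ D ^ (M / 2 + 1) * D ^ (M - M / 2) := Nat.mul_le_mul h1 h2
        _ = D ^ (M + 1) := by
            rw [← pow_add]
            congr 1
            omega

end MP_48c8ea_co
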