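import Mathlib
import Pool.Agent.Lib.MP_48c8ea_co.Defs

/-!
# Superexponential lower bound for all other vincular patterns
-/

namespace MP_48c8ea_co

open Finset

/-- the word `m-1, m+σ(0), m-2, m+σ(1), …, 0, m+σ(m-1)` -/
def famFun (m : ℕ) (σ : Equiv.Perm (Fin m)) (x : Fin (2 * m)) : Fin (2 * m) :=
  if (x : ℕ) % 2 = 0 then ⟨m - 1 - (x : ℕ) / 2, by have := x.2; omega⟩
  else ⟨m + (σ ⟨(x : ℕ) / 2, by have := x.2; omega⟩ : ℕ), by
    have := (σ ⟨(x : ℕ) / 2, by have := x.2; omega⟩).2; omega⟩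

theorem famFun_even (m : ℕ) (σ : Equiv.Perm (Fin m)) (x : Fin (2 * m)) (h : (x : ℕ) % 2 = 0) :
    (famFun m σ x : ℕ) = m - 1 - (x : ℕ) / 2 := by
  unfold famFun
  rw [if_pos h]

theorem famFun_odd (m : ℕ) (σ : Equiv.Perm (Fin m)) (x : Fin (2 * m)) (h : ¬ (x : ℕ) % 2 = 0) :
    (famFun m σ x : ℕ) = m + (σ ⟨(x : ℕ) / 2, by have := x.2; omega⟩ : ℕ) := by
  unfold famFun
  rw [if_neg h]

theorem famFun_injective (m : ℕ) (σ : Equiv.Perm (Fin m)) :
    Function.Injective (famFun m σ) := by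
  intro x y hxy
  have h : (famFun m σ x : ℕ) = (famFun m σ y : ℕ) := by rw [hxy]
  have hx2 := x.2
  have hy2 := y.2
  by_cases hx : (x : ℕ) % 2 = 0 <;> by_cases hy : (y : ℕ) % 2 = 0
  · rw [famFun_even m σ x hx, famFun_even m σ y hy] at h
    apply Fin.ext
    omega
  · rw [famFun_even m σ x hx, famFun_odd m σ y hy] at h
    omega
  · rw [famFun_odd m σ x hx, famFun_even m σ y hy] at h
    omega
  · rw [famFun_odd m σ x hx, famFun_odd m σ y hy] at h
    have h1 : (σ ⟨(x : ℕ) / 2, by omega⟩ : ℕ) = (σ ⟨(y : ℕ) / 2, by omega⟩ : ℕ) := by omega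
    have h2 := σ.injective (Fin.ext h1)
    rw [Fin.mk.injEq] at h2
    apply Fin.ext
    omega

/-- the family of permutations -/
noncomputable def famPerm (m : ℕ) (σ : Equiv.Perm (Fin m)) : Equiv.Perm (Fin (2 * m)) :=
  Equiv.ofBijective (famFun m σ) (Finite.injective_iff_bijective.mp (famFun_injective m σ))

theorem famPerm_apply (m : ℕ) (σ : Equiv.Perm (Fin m)) (x : Fin (2 * m)) :
    famPerm m σ x = famFun m σ x := rfl

theorem famPerm_injective (m : ℕ) : Function.Injective (famPerm m) := by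
  intro σ ρ h
  ext y
  have h1 := congrArg (fun π : Equiv.Perm (Fin (2 * m)) => (π ⟨2 * y + 1, by omega⟩ : ℕ)) h
  simp only [famPerm_apply] at h1
  rw [famFun_odd _ _ _ (by simp only; omega), famFun_odd _ _ _ (by simp only; omega)] at h1
  have h2 : (⟨(2 * (y : ℕ) + 1) / 2, by omega⟩ : Fin m) = y := by
    apply Fin.ext
    simp only
    omega
  rw [h2] at h1
  omega

/-- no value is smaller than two adjacent later values -/
theorem famPerm_avoid (m : ℕ) (σ : Equiv.Perm (Fin m)) (x y z : Fin (2 * m)) (hxy : x < y)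
    (hz : (z : ℕ) = y + 1) : ¬ (famPerm m σ x < famPerm m σ y ∧ famPerm m σ x < famPerm m σ z) := by
  rintro ⟨h1, h2⟩
  have hxy' : (x : ℕ) < y := hxy
  have hx2 := x.2
  have hz2 := z.2
  -- `e` is the even one among `y`, `z`
  have key : ∀ e : Fin (2 * m), (e : ℕ) % 2 = 0 → (x : ℕ) < e →
      ¬ famPerm m σ x < famPerm m σ e := by
    intro e he hxe hlt
    have he2 := e.2
    have hlt' : (famFun m σ x : ℕ) < famFun m σ e := hlt
    rw [famFun_even m σ e he] at hlt'
    by_cases hx : (x : ℕ) % 2 = 0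
    · rw [famFun_even m σ x hx] at hlt'
      omega
    · rw [famFun_odd m σ x hx] at hlt'
      omega
  by_cases hy : (y : ℕ) % 2 = 0
  · exact key y hy hxy' h1
  · exact key z (by omega) (by omega) h2

theorem not_expGrowth_of_family {k : ℕ} (p : Equiv.Perm (Fin k)) (A : Finset ℕ)
    (f : ∀ m : ℕ, Equiv.Perm (Fin m) → Equiv.Perm (Fin (2 * m)))
    (hinj : ∀ m, Function.Injective (f m)) (hav : ∀ m σ, ¬ Occurs p A (f m σ)) :
    ¬ ExpGrowth p A := by
  rintro ⟨C, hC⟩
  have hcard : ∀ m, m.factorial ≤ Av p A (2 * m) := by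
    intro m
    have h1 : Nat.card (Equiv.Perm (Fin m)) = m.factorial := by
      rw [Nat.card_eq_fintype_card, Fintype.card_perm, Fintype.card_fin]
    rw [← h1]
    unfold Av
    exact Nat.card_le_card_of_injective
      (fun σ => (⟨f m σ, hav m σ⟩ : {π : Equiv.Perm (Fin (2 * m)) // ¬ Occurs p A π}))
      (fun σ ρ h => hinj m (by simpa using h))
  have ht := FloorSemiring.tendsto_pow_div_factorial_atTop (C ^ 2)
  have hev := (ht.eventually (gt_mem_nhds one_pos)).and (Filter.eventually_ge_atTop 1)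
  obtain ⟨m, hm1, hm2⟩ := hev.exists
  have h1 : (0 : ℝ) < (m.factorial : ℝ) := by exact_mod_cast m.factorial_pos
  have h2 : (C ^ 2) ^ m < (m.factorial : ℝ) := by
    have := (div_lt_one h1).mp hm1
    exact this
  have h3 := hC (2 * m) (by omega)
  have h4 : ((m.factorial : ℕ) : ℝ) ≤ (Av p A (2 * m) : ℝ) := by exact_mod_cast hcard m
  rw [pow_mul] at h3
  linarith

/-- a vincular pattern having an adjacency other than `1k` or `k1` grows superexponentially -/
theorem not_expGrowth {k : ℕ} (p : Equiv.Perm (Fin k)) (A : Finset ℕ) (j : ℕ) (hjA : j ∈ A)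
    (hj : j + 1 < k) (i : Fin k)
    (hi : (p i < p ⟨j, Nat.lt_of_succ_lt hj⟩ ∧ p i < p ⟨j + 1, hj⟩) ∨
      (p ⟨j, Nat.lt_of_succ_lt hj⟩ < p i ∧ p ⟨j + 1, hj⟩ < p i)) : ¬ ExpGrowth p A := by
  have hij : (i : ℕ) ≠ j := by
    intro h
    have : i = ⟨j, Nat.lt_of_succ_lt hj⟩ := Fin.ext h
    subst this
    rcases hi with h | h
    · exact lt_irrefl _ h.1
    · exact lt_irrefl _ h.1
  have hij1 : (i : ℕ) ≠ j + 1 := by
    intro h
    have : i = ⟨j + 1, hj⟩ := Fin.ext h
    subst this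
    rcases hi with h | h
    · exact lt_irrefl _ h.2
    · exact lt_irrefl _ h.2
  rcases lt_or_gt_of_ne hij with hlt | hgt
  · rcases hi with hi | hi
    · apply not_expGrowth_of_family p A famPerm famPerm_injective
      rintro m σ ⟨q, hq, hord, hadj⟩
      apply famPerm_avoid m σ (q i) (q ⟨j, Nat.lt_of_succ_lt hj⟩) (q ⟨j + 1, hj⟩)
        (hq (show i < _ from hlt)) (hadj j hj hjA)
      exact ⟨(hord _ _).mpr hi.1, (hord _ _).mpr hi.2⟩
    · apply not_expGrowth_of_family p A (fun m σ => (famPerm m σ).trans Fin.revPerm)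
      · intro m σ ρ h
        apply famPerm_injective m
        have h2 := congrArg (fun π : Equiv.Perm (Fin (2 * m)) => π.trans Fin.revPerm) h
        ext x
        have h3 := congrArg (fun π : Equiv.Perm (Fin (2 * m)) => (π x : ℕ)) h2
        simpa using h3
      · rintro m σ ⟨q, hq, hord, hadj⟩
        apply famPerm_avoid m σ (q i) (q ⟨j, Nat.lt_of_succ_lt hj⟩) (q ⟨j + 1, hj⟩)
          (hq (show i < _ from hlt)) (hadj j hj hjA)
        have h1 := (hord _ _).mpr hi.1
        have h2 := (hord _ _).mpr hi.2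
        simp only [Equiv.trans_apply, Fin.revPerm_apply, Fin.rev_lt_rev] at h1 h2
        exact ⟨h1, h2⟩
  · have hgt' : j + 1 < (i : ℕ) := by omega
    have hrevlt : ∀ {m : ℕ} (q : Fin k → Fin (2 * m)), StrictMono q →
        Fin.rev (q i) < Fin.rev (q ⟨j + 1, hj⟩) := by
      intro m q hq
      rw [Fin.rev_lt_rev]
      exact hq (show (⟨j + 1, hj⟩ : Fin k) < i from hgt')
    have hrevadj : ∀ {m : ℕ} (q : Fin k → Fin (2 * m)),
        (q ⟨j + 1, hj⟩ : ℕ) = (q ⟨j, Nat.lt_of_succ_lt hj⟩ : ℕ) + 1 →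
        ((Fin.rev (q ⟨j, Nat.lt_of_succ_lt hj⟩) : Fin (2 * m)) : ℕ) =
          (Fin.rev (q ⟨j + 1, hj⟩) : Fin (2 * m)) + 1 := by
      intro m q h
      rw [Fin.val_rev, Fin.val_rev]
      have := (q ⟨j + 1, hj⟩).2
      omega
    rcases hi with hi | hi
    · apply not_expGrowth_of_family p A (fun m σ => Fin.revPerm.trans (famPerm m σ))
      · intro m σ ρ h
        apply famPerm_injective m
        ext x
        have h3 := congrArg (fun π : Equiv.Perm (Fin (2 * m)) => (π (Fin.rev x) : ℕ)) h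
        simpa using h3
      · rintro m σ ⟨q, hq, hord, hadj⟩
        apply famPerm_avoid m σ (Fin.rev (q i)) (Fin.rev (q ⟨j + 1, hj⟩))
          (Fin.rev (q ⟨j, Nat.lt_of_succ_lt hj⟩)) (hrevlt q hq) (hrevadj q (hadj j hj hjA))
        have h1 := (hord _ _).mpr hi.1
        have h2 := (hord _ _).mpr hi.2
        simp only [Equiv.trans_apply, Fin.revPerm_apply] at h1 h2
        exact ⟨h2, h1⟩
    · apply not_expGrowth_of_family p A
        (fun m σ => (Fin.revPerm.trans (famPerm m σ)).trans Fin.revPerm)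
      · intro m σ ρ h
        apply famPerm_injective m
        ext x
        have h3 := congrArg (fun π : Equiv.Perm (Fin (2 * m)) =>
          ((Fin.rev (π (Fin.rev x)) : Fin (2 * m)) : ℕ)) h
        simpa using h3
      · rintro m σ ⟨q, hq, hord, hadj⟩
        apply famPerm_avoid m σ (Fin.rev (q i)) (Fin.rev (q ⟨j + 1, hj⟩))
          (Fin.rev (q ⟨j, Nat.lt_of_succ_lt hj⟩)) (hrevlt q hq) (hrevadj q (hadj j hj hjA))
        have h1 := (hord _ _).mpr hi.1
        have h2 := (hord _ _).mpr hi.2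
        simp only [Equiv.trans_apply, Fin.revPerm_apply, Fin.rev_lt_rev] at h1 h2
        exact ⟨h2, h1⟩

end MP_48c8ea_co
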