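import Mathlib
import Pool.Agent.Lib.MP_48c8ea_co.Defs
import Pool.Agent.Lib.MP_48c8ea_co.Array
import Pool.Agent.Lib.MP_48c8ea_co.Klazar
import Pool.Agent.Lib.MP_48c8ea_co.Code

/-!
# Exponential upper bound
-/

namespace MP_48c8ea_co

open Finset

/-- complementing pattern and permutation -/
theorem occurs_compl {k n : ℕ} (p : Equiv.Perm (Fin k)) (A : Finset ℕ) (π : Equiv.Perm (Fin n)) :
    Occurs (p.trans Fin.revPerm) A (π.trans Fin.revPerm) ↔ Occurs p A π := by
  unfold Occurs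
  apply exists_congr
  intro i
  apply and_congr_right
  intro _
  apply and_congr_left
  intro _
  constructor
  · intro h s t
    have := h t s
    simp only [Equiv.trans_apply, Fin.revPerm_apply, Fin.rev_lt_rev] at this
    exact this
  · intro h s t
    simp only [Equiv.trans_apply, Fin.revPerm_apply, Fin.rev_lt_rev]
    exact h t s

theorem Av_compl {k : ℕ} (p : Equiv.Perm (Fin k)) (A : Finset ℕ) (n : ℕ) :
    Av (p.trans Fin.revPerm) A n = Av p A n := by
  unfold Av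
  apply Nat.card_congr
  refine
    { toFun := fun π => ⟨π.1.trans Fin.revPerm, ?_⟩
      invFun := fun π => ⟨π.1.trans Fin.revPerm, ?_⟩
      left_inv := ?_
      right_inv := ?_ }
  · intro h
    apply π.2
    rw [← occurs_compl] at h
    have h2 : (π.1.trans Fin.revPerm).trans Fin.revPerm = π.1 := by
      ext x; simp
    rwa [h2] at h
  · intro h
    exact π.2 ((occurs_compl p A π.1).mp h)
  · intro π
    apply Subtype.ext
    ext x
    simp
  · intro π
    apply Subtype.ext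
    ext x
    simp

theorem upper_aux (k : ℕ) : ∃ C : ℕ, ∀ (p : Equiv.Perm (Fin k)) (j : ℕ) (hj : j + 1 < k),
    (p ⟨j, Nat.lt_of_succ_lt hj⟩ : ℕ) = 0 → (p ⟨j + 1, hj⟩ : ℕ) = k - 1 →
    ∀ n : ℕ, 1 ≤ n → Av p {j} n ≤ C ^ n := by
  obtain ⟨R, hR⟩ := no_array k
  obtain ⟨C0, hC0⟩ := con_card_le R
  set E := 2 * 16 ^ (2 * C0) with hE
  refine ⟨2 * (2 * (E ^ 2 * (2 * 2 ^ 11))), ?_⟩
  intro p j hj hp0 hp1 n hn
  have hB : ∀ π : {π : Equiv.Perm (Fin n) // ¬ Occurs p {j} π}, (PD.of π.1).B ∈ Fam C0 n := by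
    intro π
    have hlt : ∀ v u, (v, u) ∈ (PD.of π.1).B → v < u ∧ u < n := fun v u h =>
      ⟨(PD.of π.1).B_lt h, (PD.of π.1).B_lt_n h⟩
    rw [mem_Fam]
    constructor
    · rintro ⟨v, u⟩ h
      have := hlt v u h
      rw [mem_product, mem_range, mem_range]
      simp only
      omega
    · intro i
      exact hC0 n _ hlt (hR p j hj hp0 hp1 n π.1 π.2) (2 ^ i) (by positivity)
  let φ : {π : Equiv.Perm (Fin n) // ¬ Occurs p {j} π} →
      (range n) × ((range n).powerset) × (Fam C0 n) × ((range n).powerset) ×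
        ((range (10 * n + 1)).powerset) := fun π =>
    (⟨(PD.of π.1).a 0, mem_range.mpr ((PD.of π.1).a_lt 0 (by omega))⟩,
     ⟨(PD.of π.1).Stk 0, mem_powerset.mpr (fun w hw => mem_range.mpr
        ((PD.of π.1).mem_Stk.mp hw).1)⟩,
     ⟨(PD.of π.1).B, hB π⟩,
     ⟨(PD.of π.1).T, mem_powerset.mpr (fun w hw => by
        obtain ⟨t, ht, _⟩ := ((PD.of π.1).mem_T.mp hw).1
        exact mem_range.mpr ((PD.of π.1).X_lt ht))⟩,
     ⟨(PD.of π.1).Q, mem_powerset.mpr (PD.Q_subset _)⟩)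
  have hφ : Function.Injective φ := by
    intro π ρ h
    simp only [φ, Prod.mk.injEq, Subtype.mk.injEq] at h
    obtain ⟨h1, h2, h3, h4, h5⟩ := h
    apply Subtype.ext
    apply PD.of_injective
    intro t ht
    exact ((PD.of π.1).decode (PD.of ρ.1) h1 h2 h3 h4
      ((PD.of π.1).ltr_eq_of_Q (PD.of ρ.1) h5) t ht).1
  have hcard := Nat.card_le_card_of_injective φ hφ
  rw [Nat.card_prod, Nat.card_prod, Nat.card_prod, Nat.card_prod] at hcard
  simp only [Nat.card_eq_fintype_card, Fintype.card_coe, card_powerset, card_range] at hcard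
  have hF := Fam_card C0 n
  rw [← hE] at hF
  have hE1 : 1 ≤ E := by
    have : 1 ≤ 16 ^ (2 * C0) := Nat.one_le_pow _ _ (by norm_num)
    omega
  clear_value E
  have g1 : n ≤ 2 ^ n := Nat.lt_two_pow_self.le
  have g2 : (Fam C0 n).card ≤ (E ^ 2) ^ n := by
    refine hF.trans ?_
    rw [← pow_mul]
    apply Nat.pow_le_pow_right (by omega)
    omega
  have g3 : 2 ^ (10 * n + 1) ≤ (2 ^ 11) ^ n := by
    rw [← pow_mul]
    apply Nat.pow_le_pow_right (by norm_num)
    omega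
  unfold Av
  calc _ ≤ _ := hcard
    _ ≤ 2 ^ n * (2 ^ n * ((E ^ 2) ^ n * (2 ^ n * (2 ^ 11) ^ n))) := by
        gcongr
    _ = (2 * (2 * (E ^ 2 * (2 * 2 ^ 11)))) ^ n := by
        rw [mul_pow, mul_pow, mul_pow, mul_pow]

/-- the patterns with a single adjacency between the letters `1` and `k` have exponential
growth -/
theorem expGrowth_of_extreme {k : ℕ} (p : Equiv.Perm (Fin k)) (j : ℕ) (hj : j + 1 < k)
    (h : ((p ⟨j, Nat.lt_of_succ_lt hj⟩ : ℕ) = 0 ∧ (p ⟨j + 1, hj⟩ : ℕ) = k - 1) ∨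
      ((p ⟨j, Nat.lt_of_succ_lt hj⟩ : ℕ) = k - 1 ∧ (p ⟨j + 1, hj⟩ : ℕ) = 0)) :
    ExpGrowth p {j} := by
  obtain ⟨C, hC⟩ := upper_aux k
  refine ⟨C, ?_⟩
  intro n hn
  rcases h with ⟨h0, h1⟩ | ⟨h0, h1⟩
  · exact_mod_cast hC p j hj h0 h1 n hn
  · have h2 := hC (p.trans Fin.revPerm) j hj
      (by simp only [Equiv.trans_apply, Fin.revPerm_apply, Fin.val_rev]; omega)
      (by simp only [Equiv.trans_apply, Fin.revPerm_apply, Fin.val_rev]; omega) n hn
    rw [Av_compl] at h2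
    exact_mod_cast h2

end MP_48c8ea_co
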